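import Pool.Agent.SC45.Defs

set_option autoImplicit false

/-!
# SC45/BadBf: bad windows contain a position of `Bf`
-/

namespace Pool.SC45

open Pool.HB45

open Classical in
/-- every non-antichain window of `f + 1` letters (at `p k, …, p k + f`, `f < p`) contains a position of `Bf f` -/
theorem bad_le_Bf {N : ℕ} {Q : Rel (N + 1)} (g : Equiv.Perm (Fin (N + 1))) (hg : g ∈ LE Q) {f p m : ℕ}
    (hp : f + 1 ≤ p) (hw : ∀ k : Fin m, k.val * p + (f + 1) ≤ N + 1) :
    ((Finset.univ.filter fun k : Fin m => ¬ Anti (hw k) Q g).card) ≤ (Bf f Q g).card := by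
  classical
  have key : ∀ k : Fin m, ¬ Anti (hw k) Q g → ∃ x : Fin (N + 1), x ∈ Bf f Q g ∧ x.val / p = k.val := by
    intro k hk
    unfold Anti at hk
    push Not at hk
    obtain ⟨i, j, hij⟩ := hk
    have hlt := (mem_LE.mp hg) _ _ hij
    have hj := j.isLt
    refine ⟨wpos (hw k) j, ?_, ?_⟩
    · simp only [Bf, Finset.mem_filter, Finset.mem_univ, true_and]
      refine ⟨wpos (hw k) i, hlt, ?_, hij⟩
      simp only [wpos]
      omega
    · simp only [wpos]
      apply Nat.div_eq_of_lt_le
      · omega
      · rw [add_mul, one_mul]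
        omega
  choose! x hx1 hx2 using key
  apply Finset.card_le_card_of_injOn x
  · intro k hk
    simp only [Finset.coe_filter, Finset.mem_univ, true_and, Set.mem_ofPred_eq] at hk
    exact hx1 k hk
  · intro k hk k' hk' h
    simp only [Finset.coe_filter, Finset.mem_univ, true_and, Set.mem_ofPred_eq] at hk hk'
    apply Fin.ext
    rw [← hx2 k hk, ← hx2 k' hk', h]

end Pool.SC45
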