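import Pool.Agent.SC45.Defs

set_option autoImplicit false

/-!
# SC45/KK: elementary facts on `KK`
-/

namespace Pool.SC45

open Pool.HB45

theorem six_pow_fact (k : ℕ) : 6 ^ k * k.factorial ≤ (2 * k + 1).factorial := by
  induction k with
  | zero => simp
  | succ k ih =>
    have h1 : (2 * (k + 1) + 1).factorial = (2 * k + 3) * ((2 * k + 2) * (2 * k + 1).factorial) := by
      rw [show 2 * (k + 1) + 1 = (2 * k + 2) + 1 by ring, Nat.factorial_succ,
        show 2 * k + 2 = (2 * k + 1) + 1 by ring, Nat.factorial_succ]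
    rw [h1, Nat.factorial_succ, pow_succ]
    calc 6 ^ k * 6 * ((k + 1) * k.factorial) = (6 * (k + 1)) * (6 ^ k * k.factorial) := by ring
      _ ≤ ((2 * k + 3) * (2 * k + 2)) * (2 * k + 1).factorial :=
          Nat.mul_le_mul (by nlinarith) ih
      _ = (2 * k + 3) * ((2 * k + 2) * (2 * k + 1).factorial) := by ring

theorem sinh_le (y : ℝ) (hy : 0 ≤ y) : Real.sinh y ≤ y * Real.exp (y ^ 2 / 6) := by
  have h1 := Real.hasSum_sinh y
  have h2 : HasSum (fun k : ℕ => y * ((y ^ 2 / 6) ^ k / (k.factorial : ℝ))) (y * Real.exp (y ^ 2 / 6)) := by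
    refine HasSum.mul_left y ?_
    rw [Real.exp_eq_exp_ℝ]
    exact NormedSpace.expSeries_div_hasSum_exp (y ^ 2 / 6)
  refine hasSum_le (fun k => ?_) h1 h2
  have h3 : (0 : ℝ) < (2 * k + 1).factorial := by exact_mod_cast Nat.factorial_pos _
  have h4 : (0 : ℝ) < k.factorial := by exact_mod_cast Nat.factorial_pos _
  have h5 : (6 : ℝ) ^ k * k.factorial ≤ (2 * k + 1).factorial := by exact_mod_cast six_pow_fact k
  rw [div_pow, ← pow_mul, pow_succ, mul_comm (y ^ (2 * k)) y, mul_div_assoc, div_div]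
  refine mul_le_mul_of_nonneg_left ?_ hy
  exact div_le_div_of_nonneg_left (by positivity) (by positivity) h5

theorem le_sinh (y : ℝ) (hy : 0 ≤ y) : y * (1 + y ^ 2 / 6) ≤ Real.sinh y := by
  have h1 := Real.hasSum_sinh y
  have h2 := sum_le_hasSum (Finset.range 2) (fun k _ => by positivity) h1
  have h3 : ∑ i ∈ Finset.range 2, y ^ (2 * i + 1) / ((2 * i + 1).factorial : ℝ) = y * (1 + y ^ 2 / 6) := by
    simp [Finset.sum_range_succ, Nat.factorial]
    ring
  rw [h3] at h2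
  exact h2

theorem exp_le_one_add (z : ℝ) (hz : 0 ≤ z) : Real.exp (z - z ^ 2 / 2) ≤ 1 + z := by
  have h1 := Real.le_log_one_add_of_nonneg hz
  have h2 : z - z ^ 2 / 2 ≤ 2 * z / (z + 2) := by
    rw [le_div_iff₀ (by positivity)]
    nlinarith [pow_nonneg hz 3]
  calc Real.exp (z - z ^ 2 / 2) ≤ Real.exp (Real.log (1 + z)) := Real.exp_le_exp.2 (h2.trans h1)
    _ = 1 + z := Real.exp_log (by positivity)

/-- elementary facts on `KK`: `KK N s = e^(-sN/2) (sinh(s/2)/(s/2))^(N+2)` -/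
theorem KK_eq (N : ℕ) (s : ℝ) (hs : 0 < s) :
    KK N s = Real.exp (-(s * N / 2)) * (Real.sinh (s / 2) / (s / 2)) ^ (N + 2) := by
  unfold KK
  have h1 : (1 - Real.exp (-s)) / s = Real.exp (-(s / 2)) * (Real.sinh (s / 2) / (s / 2)) := by
    rw [Real.sinh_eq]
    have h2 : Real.exp (-(s / 2)) * Real.exp (s / 2) = 1 := by
      rw [← Real.exp_add]; simp
    have h3 : Real.exp (-(s / 2)) * Real.exp (-(s / 2)) = Real.exp (-s) := by
      rw [← Real.exp_add]; congr 1; ring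
    field_simp
    linear_combination (-1 : ℝ) * h2 + h3
  rw [h1, mul_pow, ← mul_assoc, ← Real.exp_nat_mul, ← Real.exp_add]
  congr 2
  push_cast
  ring

/-- `sinh y / y ≤ e^(y²/6)` -/
theorem KK_le (N : ℕ) (s : ℝ) (hs : 0 < s) :
    KK N s ≤ Real.exp (-(s * N / 2) + (N + 2) * s ^ 2 / 24) := by
  rw [KK_eq N s hs]
  have h1 : Real.sinh (s / 2) / (s / 2) ≤ Real.exp (s ^ 2 / 24) := by
    rw [div_le_iff₀ (by positivity)]
    have := sinh_le (s / 2) (by positivity)
    calc Real.sinh (s / 2) ≤ s / 2 * Real.exp ((s / 2) ^ 2 / 6) := this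
      _ = Real.exp (s ^ 2 / 24) * (s / 2) := by rw [mul_comm]; congr 2; ring
  have h0 : 0 ≤ Real.sinh (s / 2) / (s / 2) :=
    div_nonneg (Real.sinh_nonneg_iff.2 (by positivity)) (by positivity)
  calc Real.exp (-(s * N / 2)) * (Real.sinh (s / 2) / (s / 2)) ^ (N + 2)
      ≤ Real.exp (-(s * N / 2)) * Real.exp (s ^ 2 / 24) ^ (N + 2) :=
        mul_le_mul_of_nonneg_left (pow_le_pow_left₀ h0 h1 _) (Real.exp_pos _).le
    _ = Real.exp (-(s * N / 2) + (N + 2) * s ^ 2 / 24) := by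
        rw [← Real.exp_nat_mul, ← Real.exp_add]
        congr 1
        push_cast
        ring

/-- `sinh y / y ≥ 1 + y²/6`, `1 + z ≥ e^(z - z²/2)` (`z ≥ 0`) -/
theorem le_KK (N : ℕ) (s : ℝ) (hs : 0 < s) :
    Real.exp (-(s * N / 2) + (N + 2) * (s ^ 2 / 24 - s ^ 4 / 1152)) ≤ KK N s := by
  rw [KK_eq N s hs]
  have h1 : Real.exp (s ^ 2 / 24 - s ^ 4 / 1152) ≤ Real.sinh (s / 2) / (s / 2) := by
    rw [le_div_iff₀ (by positivity)]
    have h2 := le_sinh (s / 2) (by positivity)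
    have h3 := exp_le_one_add (s ^ 2 / 24) (by positivity)
    calc Real.exp (s ^ 2 / 24 - s ^ 4 / 1152) * (s / 2)
        = Real.exp (s ^ 2 / 24 - (s ^ 2 / 24) ^ 2 / 2) * (s / 2) := by congr 2; ring
      _ ≤ (1 + s ^ 2 / 24) * (s / 2) := mul_le_mul_of_nonneg_right h3 (by positivity)
      _ = s / 2 * (1 + (s / 2) ^ 2 / 6) := by ring
      _ ≤ Real.sinh (s / 2) := h2
  calc Real.exp (-(s * N / 2) + (N + 2) * (s ^ 2 / 24 - s ^ 4 / 1152))
      = Real.exp (-(s * N / 2)) * Real.exp (s ^ 2 / 24 - s ^ 4 / 1152) ^ (N + 2) := by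
        rw [← Real.exp_nat_mul, ← Real.exp_add]
        congr 1
        push_cast
        ring
    _ ≤ Real.exp (-(s * N / 2)) * (Real.sinh (s / 2) / (s / 2)) ^ (N + 2) :=
        mul_le_mul_of_nonneg_left (pow_le_pow_left₀ (Real.exp_pos _).le h1 _) (Real.exp_pos _).le

end Pool.SC45
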