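import Pool.Agent.SC45.OmC

set_option autoImplicit false

/-!
# SC45/LapW: Laplace bounds for `W`
-/

namespace Pool.SC45

open Pool.HB45

/-- from the bounds for the sum -/
theorem Lap_lower_of {N : ℕ} {Q : Rel (N + 1)} {lab : Fin (N + 1) → ℕ} (hn : Nat' Q lab) (s : ℝ)
    (hs : 0 < s)
    (hsum : Summable (fun k : ℕ => (k : ℝ) ^ (N + 1) * Real.exp (-(s * k))))
    (hlow : 1 / 2 * (((N + 1).factorial : ℝ) / s ^ (N + 1 + 1)) ≤
      ∑' k : ℕ, (k : ℝ) ^ (N + 1) * Real.exp (-(s * k))) :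
    1 / 2 * ((LE Q).card : ℝ) * KK N s ≤ Wr Q lab (Real.exp (-s)) := by
  set t := Real.exp (-s) with ht
  have ht0 : 0 < t := Real.exp_pos _
  have ht1 : t < 1 := by
    rw [ht, Real.exp_lt_one_iff]
    linarith
  obtain ⟨hW1, hW2⟩ := Wr_eq_tsum hn t ht0.le ht1
  set c : ℝ := ((LE Q).card : ℝ) / ((N + 1).factorial : ℝ) with hc
  have hf : (0 : ℝ) < ((N + 1).factorial : ℝ) := by positivity
  have hterm : ∀ m : ℕ, c * (Real.exp s * (((m + 1 : ℕ) : ℝ) ^ (N + 1) *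
      Real.exp (-(s * ((m + 1 : ℕ) : ℝ))))) ≤ (Om Q m : ℝ) * t ^ m := by
    intro m
    have h1 := Om_lower hn m
    have h2 : Real.exp s * Real.exp (-(s * ((m + 1 : ℕ) : ℝ))) = t ^ m := by
      rw [ht, ← Real.exp_nat_mul, ← Real.exp_add]
      congr 1
      push_cast
      ring
    have h3 : c * ((m : ℝ) + 1) ^ (N + 1) ≤ Om Q m := by
      rw [hc, div_mul_eq_mul_div, div_le_iff₀ hf]
      linarith
    calc c * (Real.exp s * (((m + 1 : ℕ) : ℝ) ^ (N + 1) * Real.exp (-(s * ((m + 1 : ℕ) : ℝ)))))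
        = c * ((m : ℝ) + 1) ^ (N + 1) * (Real.exp s * Real.exp (-(s * ((m + 1 : ℕ) : ℝ)))) := by
          push_cast
          ring
      _ = c * ((m : ℝ) + 1) ^ (N + 1) * t ^ m := by rw [h2]
      _ ≤ _ := mul_le_mul_of_nonneg_right h3 (pow_nonneg ht0.le _)
  have hsum1 : Summable fun m : ℕ => (((m + 1 : ℕ) : ℝ) ^ (N + 1) *
      Real.exp (-(s * ((m + 1 : ℕ) : ℝ)))) :=
    (summable_nat_add_iff 1).2 hsum
  have hshift : ∑' m : ℕ, (((m + 1 : ℕ) : ℝ) ^ (N + 1) * Real.exp (-(s * ((m + 1 : ℕ) : ℝ)))) =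
      ∑' k : ℕ, (k : ℝ) ^ (N + 1) * Real.exp (-(s * k)) := by
    rw [hsum.tsum_eq_zero_add]
    simp
  have h4 := Summable.tsum_le_tsum hterm ((hsum1.mul_left (Real.exp s)).mul_left c) hW1
  rw [tsum_mul_left, tsum_mul_left, hshift] at h4
  have hc0 : 0 ≤ c := by positivity
  have h1t : 0 < 1 - t := by linarith
  rw [hW2]
  have h5 : c * (Real.exp s * (1 / 2 * (((N + 1).factorial : ℝ) / s ^ (N + 1 + 1)))) ≤
      ∑' m : ℕ, (Om Q m : ℝ) * t ^ m := by
    refine le_trans ?_ h4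
    exact mul_le_mul_of_nonneg_left (mul_le_mul_of_nonneg_left hlow (Real.exp_pos _).le) hc0
  calc 1 / 2 * ((LE Q).card : ℝ) * KK N s
      = (1 - t) ^ (N + 2) * (c * (Real.exp s * (1 / 2 * (((N + 1).factorial : ℝ) /
          s ^ (N + 1 + 1))))) := by
        unfold KK
        rw [← ht, hc, div_pow]
        field_simp
    _ ≤ _ := mul_le_mul_of_nonneg_left h5 (pow_nonneg h1t.le _)

/-- from the bounds for the sum -/
theorem Lap_upper_of {N h : ℕ} (hh : 1 ≤ h) {Q : Rel (N + 1)} {κ lab : Fin (N + 1) → ℕ}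
    (hκ : Lev h Q κ) (hn : Nat' Q lab) (s : ℝ) (hs : 0 < s)
    (hsum : Summable (fun k : ℕ => (k : ℝ) ^ (N + 1) * Real.exp (-(s * k))))
    (hupp : ∑' k : ℕ, (k : ℝ) ^ (N + 1) * Real.exp (-(s * k)) ≤
      2 * (((N + 1).factorial : ℝ) / s ^ (N + 1 + 1))) :
    Wr Q lab (Real.exp (-s)) ≤
      2 * ((LE Q).card : ℝ) * Real.exp (((h : ℝ) - 1) * s) * KK N s := by
  set t := Real.exp (-s) with ht
  have ht0 : 0 < t := Real.exp_pos _
  have ht1 : t < 1 := by
    rw [ht, Real.exp_lt_one_iff]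
    linarith
  obtain ⟨hW1, hW2⟩ := Wr_eq_tsum hn t ht0.le ht1
  set c : ℝ := ((LE Q).card : ℝ) / ((N + 1).factorial : ℝ) with hc
  have hf : (0 : ℝ) < ((N + 1).factorial : ℝ) := by positivity
  have hterm : ∀ m : ℕ, (Om Q m : ℝ) * t ^ m ≤ c * (Real.exp (s * h) * (((m + h : ℕ) : ℝ) ^ (N + 1) *
      Real.exp (-(s * ((m + h : ℕ) : ℝ))))) := by
    intro m
    have h1 := Om_upper hh hκ hn m
    have h2 : Real.exp (s * h) * Real.exp (-(s * ((m + h : ℕ) : ℝ))) = t ^ m := by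
      rw [ht, ← Real.exp_nat_mul, ← Real.exp_add]
      congr 1
      push_cast
      ring
    have h3 : (Om Q m : ℝ) ≤ c * ((m : ℝ) + h) ^ (N + 1) := by
      rw [hc, div_mul_eq_mul_div, le_div_iff₀ hf]
      linarith
    calc (Om Q m : ℝ) * t ^ m ≤ c * ((m : ℝ) + h) ^ (N + 1) * t ^ m :=
          mul_le_mul_of_nonneg_right h3 (pow_nonneg ht0.le _)
      _ = c * ((m : ℝ) + h) ^ (N + 1) *
          (Real.exp (s * h) * Real.exp (-(s * ((m + h : ℕ) : ℝ)))) := by rw [h2]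
      _ = _ := by
          push_cast
          ring
  have hsum1 : Summable fun m : ℕ => (((m + h : ℕ) : ℝ) ^ (N + 1) *
      Real.exp (-(s * ((m + h : ℕ) : ℝ)))) :=
    (summable_nat_add_iff h).2 hsum
  have hshift : ∑' m : ℕ, (((m + h : ℕ) : ℝ) ^ (N + 1) * Real.exp (-(s * ((m + h : ℕ) : ℝ)))) ≤
      ∑' k : ℕ, (k : ℝ) ^ (N + 1) * Real.exp (-(s * k)) := by
    rw [← hsum.sum_add_tsum_nat_add h]
    have : 0 ≤ ∑ i ∈ Finset.range h, (i : ℝ) ^ (N + 1) * Real.exp (-(s * i)) :=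
      Finset.sum_nonneg fun i _ => by positivity
    linarith
  have h4 := Summable.tsum_le_tsum hterm hW1 ((hsum1.mul_left (Real.exp (s * h))).mul_left c)
  rw [tsum_mul_left, tsum_mul_left] at h4
  have hc0 : 0 ≤ c := by positivity
  have h1t : 0 < 1 - t := by linarith
  rw [hW2]
  have h5 : ∑' m : ℕ, (Om Q m : ℝ) * t ^ m ≤
      c * (Real.exp (s * h) * (2 * (((N + 1).factorial : ℝ) / s ^ (N + 1 + 1)))) := by
    refine h4.trans ?_
    exact mul_le_mul_of_nonneg_left (mul_le_mul_of_nonneg_left (hshift.trans hupp)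
      (Real.exp_pos _).le) hc0
  calc _ ≤ (1 - t) ^ (N + 2) *
        (c * (Real.exp (s * h) * (2 * (((N + 1).factorial : ℝ) / s ^ (N + 1 + 1))))) :=
        mul_le_mul_of_nonneg_left h5 (pow_nonneg h1t.le _)
    _ = 2 * ((LE Q).card : ℝ) * Real.exp (((h : ℝ) - 1) * s) * KK N s := by
        have h6 : Real.exp (s * h) = Real.exp (((h : ℝ) - 1) * s) * Real.exp s := by
          rw [← Real.exp_add]
          congr 1
          ring
        unfold KK
        rw [← ht, hc, div_pow, h6]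
        field_simp

end Pool.SC45
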