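import Pool.Agent.SC45.OmC
import Pool.Agent.SC45.KK
import Pool.Agent.SC45.LapW
import Pool.Agent.SC90.SumInt

set_option autoImplicit false

/-!
# SC45/Lap: Laplace bounds for `W`
-/

namespace Pool.SC45

open Pool.HB45

/-- sum against integral of the unimodal function `x^n e^(-sx)` with maximum `(n/(es))^n ≤
(s/√(2πn)) n!/s^(n+1)` (helper90, SC90/SumInt) -/
theorem sum_bounds (n : ℕ) (hn : 1 ≤ n) (s : ℝ) (hs : 0 < s) (hs1 : s ≤ Real.sqrt n) :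
    Summable (fun k : ℕ => (k : ℝ) ^ n * Real.exp (-(s * k))) ∧
    1 / 2 * ((n.factorial : ℝ) / s ^ (n + 1)) ≤ ∑' k : ℕ, (k : ℝ) ^ n * Real.exp (-(s * k)) ∧
    ∑' k : ℕ, (k : ℝ) ^ n * Real.exp (-(s * k)) ≤ 2 * ((n.factorial : ℝ) / s ^ (n + 1)) := by
  obtain ⟨h1, h2⟩ := Pool.Agent.SC90.tsum_pexp_bounds hn hs hs1
  refine ⟨Pool.Agent.SC90.summable_pexp hn hs, h1, h2.trans ?_⟩
  have h3 : (0 : ℝ) ≤ (n.factorial : ℝ) / s ^ (n + 1) := by positivity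
  linarith

/-- `Wr_eq_tsum`, `Om_lower`, `Σ_m (m+1)^n t^m = e^s Σ_k k^n e^(-sk)` -/
theorem Lap_lower {N : ℕ} {Q : Rel (N + 1)} {lab : Fin (N + 1) → ℕ} (hn : Nat' Q lab) (s : ℝ)
    (hs : 0 < s) (hs1 : s ^ 2 ≤ (N : ℝ) + 1) :
    1 / 2 * ((LE Q).card : ℝ) * KK N s ≤ Wr Q lab (Real.exp (-s)) := by
  obtain ⟨h1, h2, _⟩ := sum_bounds (N + 1) (by omega) s hs
    (Real.le_sqrt_of_sq_le (by push_cast; exact hs1))
  exact Lap_lower_of hn s hs h1 h2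

/-- `Om_upper`, `Σ_m (m+h)^n t^m ≤ e^(sh) Σ_k k^n e^(-sk)` -/
theorem Lap_upper {N h : ℕ} (hh : 1 ≤ h) {Q : Rel (N + 1)} {κ lab : Fin (N + 1) → ℕ} (hκ : Lev h Q κ)
    (hn : Nat' Q lab) (s : ℝ) (hs : 0 < s) (hs1 : s ^ 2 ≤ (N : ℝ) + 1) :
    Wr Q lab (Real.exp (-s)) ≤
      2 * ((LE Q).card : ℝ) * Real.exp (((h : ℝ) - 1) * s) * KK N s := by
  obtain ⟨h1, _, h3⟩ := sum_bounds (N + 1) (by omega) s hs
    (Real.le_sqrt_of_sq_le (by push_cast; exact hs1))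
  exact Lap_upper_of hh hκ hn s hs h1 h3

end Pool.SC45
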