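import Pool.Agent.SC45.Del
import Pool.Agent.SC45.Lap

set_option autoImplicit false

/-!
# SC45/LDa: words with many close comparable letters are rare, in every tilt (helper37)
-/

namespace Pool.SC45

open Pool.HB45

/-- `Wr` at `1` is the number of linear extensions -/
theorem Wr_one {N : ℕ} (Q : Rel (N + 1)) (lab : Fin (N + 1) → ℕ) : Wr Q lab 1 = (LE Q).card := by
  simp [Wr]

theorem ldA_Wr_nonneg {N : ℕ} (Q : Rel (N + 1)) (lab : Fin (N + 1) → ℕ) (t : ℝ) (ht : 0 ≤ t) :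
    0 ≤ Wr Q lab t := Finset.sum_nonneg fun _ _ => pow_nonneg ht _

/-- numbers: `(n - k)! / n! ≤ (2/n)^k` for `2 k ≤ n` -/
theorem fact_ratio (n k : ℕ) (hk : 2 * k ≤ n) (hn : 1 ≤ n) :
    ((n - k).factorial : ℝ) ≤ (2 / (n : ℝ)) ^ k * (n.factorial : ℝ) := by
  have hn0 : (0 : ℝ) < (n : ℝ) := by exact_mod_cast hn
  have h1 : (n - k).factorial * (n - k + 1) ^ k ≤ n.factorial := by
    have h := Nat.factorial_mul_pow_le_factorial (n := k) (m := n - k)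
    have e : n - k + k = n := by omega
    rw [e] at h
    exact h
  have h2 : ((n - k).factorial : ℝ) * ((n : ℝ) / 2) ^ k ≤ (n.factorial : ℝ) := by
    have h3 : ((n - k).factorial : ℝ) * ((n - k : ℕ) + 1 : ℝ) ^ k ≤ (n.factorial : ℝ) := by
      exact_mod_cast h1
    have h4 : (n : ℝ) / 2 ≤ ((n - k : ℕ) : ℝ) + 1 := by
      have h5 : n ≤ 2 * (n - k) := by omega
      have h6 : (n : ℝ) ≤ 2 * ((n - k : ℕ) : ℝ) := by exact_mod_cast h5
      linarith
    have h7 : ((n : ℝ) / 2) ^ k ≤ (((n - k : ℕ) : ℝ) + 1) ^ k :=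
      pow_le_pow_left₀ (by positivity) h4 k
    calc ((n - k).factorial : ℝ) * ((n : ℝ) / 2) ^ k
        ≤ ((n - k).factorial : ℝ) * (((n - k : ℕ) : ℝ) + 1) ^ k :=
          mul_le_mul_of_nonneg_left h7 (by positivity)
      _ ≤ (n.factorial : ℝ) := h3
  have h8 : (2 / (n : ℝ)) ^ k * ((n : ℝ) / 2) ^ k = 1 := by
    rw [← mul_pow]
    have : 2 / (n : ℝ) * ((n : ℝ) / 2) = 1 := by field_simp
    rw [this, one_pow]
  have h9 : 0 ≤ (2 / (n : ℝ)) ^ k := by positivity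
  calc ((n - k).factorial : ℝ)
      = (2 / (n : ℝ)) ^ k * (((n - k).factorial : ℝ) * ((n : ℝ) / 2) ^ k) := by
        rw [mul_left_comm, h8, mul_one]
    _ ≤ (2 / (n : ℝ)) ^ k * (n.factorial : ℝ) := mul_le_mul_of_nonneg_left h2 h9

/-- the number of linear extensions after the deletion of `k` letters -/
theorem ldA_card_sub {N N' h k : ℕ} (hh : 1 ≤ h) (hk : 2 * k ≤ N) (hN : N' + k = N)
    {Q : Rel (N + 1)} {κ lab : Fin (N + 1) → ℕ} (hκ : Lev h Q κ) (hn : Nat' Q lab) (hQ : Tr Q)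
    (ι : Fin (N' + 1) → Fin (N + 1)) (hι : Function.Injective ι) :
    ((LE (sub Q ι)).card : ℝ) ≤
      2 ^ (N + 1) * (h : ℝ) ^ k * (2 / ((N : ℝ) + 1)) ^ k * (LE Q).card := by
  have h1 := card_sub_le hh hκ hn hQ ι hι
  have e1 : N - N' = k := by omega
  rw [e1] at h1
  have h2 := fact_ratio (N + 1) k (by omega) (by omega)
  have e2 : N + 1 - k = N' + 1 := by omega
  rw [e2] at h2
  have hf : (0 : ℝ) < ((N + 1).factorial : ℝ) := by exact_mod_cast Nat.factorial_pos _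
  have h3 : ((LE (sub Q ι)).card : ℝ) * ((N + 1).factorial : ℝ) ≤
      (2 ^ (N + 1) * (h : ℝ) ^ k * (2 / ((N : ℝ) + 1)) ^ k * (LE Q).card) *
        ((N + 1).factorial : ℝ) := by
    refine le_trans h1 ?_
    have h4 : (0 : ℝ) ≤ 2 ^ (N + 1) * (h : ℝ) ^ k := by positivity
    have h5 : (0 : ℝ) ≤ ((LE Q).card : ℝ) := Nat.cast_nonneg _
    push_cast at h2 ⊢
    calc 2 ^ (N + 1) * (h : ℝ) ^ k * ((N' + 1).factorial : ℝ) * (LE Q).card
        ≤ 2 ^ (N + 1) * (h : ℝ) ^ k * ((2 / ((N : ℝ) + 1)) ^ k * ((N + 1).factorial : ℝ)) *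
          (LE Q).card := by
          apply mul_le_mul_of_nonneg_right _ h5
          exact mul_le_mul_of_nonneg_left h2 h4
      _ = _ := by ring
  exact le_of_mul_le_mul_right h3 hf

theorem ldA_choose (N k : ℕ) : (((N + 1).choose k : ℕ) : ℝ) ≤ 2 ^ (N + 1) := by
  exact_mod_cast Nat.choose_le_two_pow (N + 1) k

/-- LARGE DEVIATIONS at `t = 1`. `rare`, `Wr_one`, `card_sub_le`, `fact_ratio`, `choose ≤ 2^n`. -/
theorem ld_one {N h k f : ℕ} (hh : 1 ≤ h) (hk : 2 * k ≤ N) {Q : Rel (N + 1)}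
    {κ lab : Fin (N + 1) → ℕ} (hκ : Lev h Q κ) (hn : Nat' Q lab) (hQ : Tr Q) :
    (((LE Q).filter fun g => k ≤ (Bf f Q g).card).card : ℝ) ≤
      4 ^ (N + 1) * (2 * f * h / ((N : ℝ) + 1)) ^ k * (LE Q).card := by
  classical
  obtain ⟨N', hN'⟩ : ∃ N', N' + k = N := ⟨N - k, by omega⟩
  have h1 := rare hN' f 1 zero_le_one le_rfl hn
    (2 ^ (N + 1) * (h : ℝ) ^ k * (2 / ((N : ℝ) + 1)) ^ k * (LE Q).card)
    (fun ι hι => by
      rw [Wr_one]
      exact ldA_card_sub hh hk hN' hκ hn hQ ι hι)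
  have h2 : (((LE Q).filter fun g => k ≤ (Bf f Q g).card).card : ℝ) =
      ∑ g ∈ (LE Q).filter (fun g => k ≤ (Bf f Q g).card), (1 : ℝ) ^ des lab g := by
    simp
  rw [h2]
  refine le_trans h1 ?_
  have h3 := ldA_choose N k
  have h4 : (0 : ℝ) ≤ (f : ℝ) ^ k * (2 ^ (N + 1) * (h : ℝ) ^ k * (2 / ((N : ℝ) + 1)) ^ k *
      (LE Q).card) := by positivity
  calc ((N + 1).choose k : ℝ) * (f : ℝ) ^ k *
        (2 ^ (N + 1) * (h : ℝ) ^ k * (2 / ((N : ℝ) + 1)) ^ k * (LE Q).card)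
      = ((N + 1).choose k : ℝ) * ((f : ℝ) ^ k *
        (2 ^ (N + 1) * (h : ℝ) ^ k * (2 / ((N : ℝ) + 1)) ^ k * (LE Q).card)) := by ring
    _ ≤ 2 ^ (N + 1) * ((f : ℝ) ^ k *
        (2 ^ (N + 1) * (h : ℝ) ^ k * (2 / ((N : ℝ) + 1)) ^ k * (LE Q).card)) :=
        mul_le_mul_of_nonneg_right h3 h4
    _ = (2 ^ (N + 1) * 2 ^ (N + 1)) * ((f : ℝ) ^ k * (h : ℝ) ^ k * (2 / ((N : ℝ) + 1)) ^ k) *
        (LE Q).card := by ring
    _ = 4 ^ (N + 1) * (2 * f * h / ((N : ℝ) + 1)) ^ k * (LE Q).card := by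
        rw [← mul_pow, ← mul_pow, ← mul_pow]
        congr 2
        · norm_num
        · ring

/-- `KK N' s ≤ KK N s (s+1)^k` for `N' + k = N` -/
theorem ldA_KK {N N' k : ℕ} (hN : N' + k = N) (s : ℝ) (hs : 0 < s) :
    KK N' s ≤ KK N s * (s + 1) ^ k := by
  unfold KK
  set q : ℝ := (1 - Real.exp (-s)) / s with hq
  have hE : Real.exp (-s) < 1 := by
    rw [Real.exp_lt_one_iff]
    linarith
  have hq0 : 0 < q := div_pos (by linarith) hs
  have hqs : 1 ≤ q * (s + 1) := by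
    rw [hq, div_mul_eq_mul_div, le_div_iff₀ hs, one_mul]
    have h1 : s + 1 ≤ Real.exp s := Real.add_one_le_exp s
    have h2 : Real.exp (-s) * (s + 1) ≤ 1 := by
      calc Real.exp (-s) * (s + 1) ≤ Real.exp (-s) * Real.exp s :=
            mul_le_mul_of_nonneg_left h1 (Real.exp_pos _).le
        _ = 1 := by rw [← Real.exp_add]; simp
    nlinarith
  have e : N + 2 = N' + 2 + k := by omega
  have e' : q ^ (N + 2) = q ^ (N' + 2) * q ^ k := by rw [e, pow_add]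
  rw [e']
  have h3 : 1 ≤ (q * (s + 1)) ^ k := one_le_pow₀ hqs
  have h4 : 0 ≤ Real.exp s * q ^ (N' + 2) := by positivity
  calc Real.exp s * q ^ (N' + 2) = Real.exp s * q ^ (N' + 2) * 1 := (mul_one _).symm
    _ ≤ Real.exp s * q ^ (N' + 2) * (q * (s + 1)) ^ k := mul_le_mul_of_nonneg_left h3 h4
    _ = Real.exp s * (q ^ (N' + 2) * q ^ k) * (s + 1) ^ k := by
        rw [mul_pow]; ring

/-- LARGE DEVIATIONS in the tilt `e^(-s)`. `rare` with
`W0 = 2 e(P - Y) e^((h-1)s) KK N' s` (`Lap_upper`), `KK N' s = KK N s (s/(1 - e^(-s)))^k ≤ KK N s (s+1)^k`,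
`card_sub_le`, `fact_ratio`, `Lap_lower`. -/
theorem ld {N h k f : ℕ} (hh : 1 ≤ h) (hk : 2 * k ≤ N) {Q : Rel (N + 1)}
    {κ lab : Fin (N + 1) → ℕ} (hκ : Lev h Q κ) (hn : Nat' Q lab) (hQ : Tr Q) (s : ℝ) (hs : 0 < s)
    (hs1 : 2 * s ^ 2 ≤ (N : ℝ) + 1) :
    (∑ g ∈ (LE Q).filter (fun g => k ≤ (Bf f Q g).card), Real.exp (-s) ^ des lab g) ≤
      4 * Real.exp (h * s) * 4 ^ (N + 1) * (2 * f * (s + 1) * h / ((N : ℝ) + 1)) ^ k *
        Wr Q lab (Real.exp (-s)) := by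
  classical
  obtain ⟨N', hN'⟩ : ∃ N', N' + k = N := ⟨N - k, by omega⟩
  have hE0 : 0 < Real.exp (-s) := Real.exp_pos _
  have hE1 : Real.exp (-s) ≤ 1 := by
    rw [Real.exp_le_one_iff]
    linarith
  have hsN' : s ^ 2 ≤ (N' : ℝ) + 1 := by
    have h1 : N ≤ 2 * N' := by omega
    have h2 : (N : ℝ) ≤ 2 * (N' : ℝ) := by exact_mod_cast h1
    linarith
  have hsN : s ^ 2 ≤ (N : ℝ) + 1 := by nlinarith [sq_nonneg s]
  have hKK0 : ∀ M, 0 ≤ KK M s := by
    intro M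
    unfold KK
    have h1 : 0 ≤ (1 - Real.exp (-s)) / s := div_nonneg (by linarith) hs.le
    positivity
  set A : ℝ := 2 ^ (N + 1) * (h : ℝ) ^ k * (2 / ((N : ℝ) + 1)) ^ k * (LE Q).card with hA
  have hA0 : 0 ≤ A := by positivity
  have h1 := rare hN' f (Real.exp (-s)) hE0.le hE1 hn
    (2 * A * Real.exp (((h : ℝ) - 1) * s) * (KK N s * (s + 1) ^ k))
    (fun ι hι => by
      have k1 := Lap_upper hh (sub_lev hκ ι) (sub_nat hn ι hι) s hs hsN'
      refine le_trans k1 ?_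
      have k2 := ldA_card_sub hh hk hN' hκ hn hQ ι hι
      have k3 := ldA_KK hN' s hs
      have k4 : 0 ≤ Real.exp (((h : ℝ) - 1) * s) := (Real.exp_pos _).le
      have k5 : 2 * ((LE (sub Q ι)).card : ℝ) * Real.exp (((h : ℝ) - 1) * s) ≤
          2 * A * Real.exp (((h : ℝ) - 1) * s) :=
        mul_le_mul_of_nonneg_right (mul_le_mul_of_nonneg_left k2 (by norm_num)) k4
      exact mul_le_mul k5 k3 (hKK0 _) (by positivity))
  refine le_trans h1 ?_
  have h2 := Lap_lower hn s hs hsN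
  have h3 := ldA_choose N k
  have hW0 := ldA_Wr_nonneg Q lab (Real.exp (-s)) hE0.le
  set W : ℝ := Wr Q lab (Real.exp (-s)) with hW
  have h4 : ((LE Q).card : ℝ) * KK N s ≤ 2 * W := by linarith
  have h5 : Real.exp (((h : ℝ) - 1) * s) ≤ Real.exp (h * s) :=
    Real.exp_le_exp.2 (by nlinarith)
  set c : ℝ := (f : ℝ) ^ k * (2 ^ (N + 1) * (h : ℝ) ^ k * (2 / ((N : ℝ) + 1)) ^ k) * (s + 1) ^ k
    with hc
  have hc0 : 0 ≤ c := by positivity
  have h6 : 0 ≤ Real.exp (h * s) := (Real.exp_pos _).le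
  calc ((N + 1).choose k : ℝ) * (f : ℝ) ^ k *
        (2 * A * Real.exp (((h : ℝ) - 1) * s) * (KK N s * (s + 1) ^ k))
      = (((N + 1).choose k : ℝ) * Real.exp (((h : ℝ) - 1) * s)) *
        (2 * c * (((LE Q).card : ℝ) * KK N s)) := by rw [hA, hc]; ring
    _ ≤ (2 ^ (N + 1) * Real.exp (h * s)) * (2 * c * (2 * W)) := by
        apply mul_le_mul
        · exact mul_le_mul h3 h5 (Real.exp_pos _).le (by positivity)
        · exact mul_le_mul_of_nonneg_left h4 (by positivity)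
        · have := hKK0 N
          positivity
        · positivity
    _ = 4 * Real.exp (h * s) * (2 ^ (N + 1) * 2 ^ (N + 1)) *
        ((f : ℝ) ^ k * (h : ℝ) ^ k * (2 / ((N : ℝ) + 1)) ^ k * (s + 1) ^ k) * W := by
        rw [hc]; ring
    _ = 4 * Real.exp (h * s) * 4 ^ (N + 1) * (2 * f * (s + 1) * h / ((N : ℝ) + 1)) ^ k * W := by
        rw [← mul_pow, ← mul_pow, ← mul_pow, ← mul_pow]
        congr 2
        · norm_num
        · congr 1
          ring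

end Pool.SC45
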