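import Pool.Agent.SC45.Del
import Pool.Agent.SC45.Lap
import Pool.Agent.SC45.LDa
import Pool.Agent.SC45.BadBf

set_option autoImplicit false

/-!
# SC45/LD: words with many close comparable letters are rare, in every tilt
-/

namespace Pool.SC45

open Pool.HB45


end Pool.SC45
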