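import Pool.Agent.SC45.DelOne

set_option autoImplicit false

/-!
# SC45/Del: deleting letters that have a lower letter close in front of them
-/

namespace Pool.SC45

open Pool.HB45

/-- preimage of `Y` under `y.succAbove` -/
theorem card_pre {N k : ℕ} (Y : Finset (Fin (N + 1 + 1))) (y : Fin (N + 1 + 1)) (hy : y ∈ Y)
    (hc : Y.card = k + 1) :
    ((Finset.univ : Finset (Fin (N + 1))).filter fun a => y.succAbove a ∈ Y).card = k := by
  have h1 : ((Finset.univ : Finset (Fin (N + 1))).filter fun a => y.succAbove a ∈ Y).map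
      y.succAboveEmb = Y.erase y := by
    ext x
    rw [Finset.mem_map, Finset.mem_erase]
    constructor
    · rintro ⟨a, ha, rfl⟩
      exact ⟨Fin.succAbove_ne y a, (Finset.mem_filter.1 ha).2⟩
    · rintro ⟨hx, hxY⟩
      obtain ⟨a, rfl⟩ := Fin.exists_succAbove_eq hx
      exact ⟨a, Finset.mem_filter.2 ⟨Finset.mem_univ _, hxY⟩, rfl⟩
  rw [← Finset.card_map, h1, Finset.card_erase_of_mem hy, hc, Nat.add_sub_cancel]

/-- DELETING A SET `Y` of `k` letters, largest label first. PROOF. Induction on `k` (`N` generalized). `k = 0`: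
`ι = id`. Step: `N = M + 1`, `y ∈ Y` with the largest label, `Y'` = preimage of `Y` under `y.succAbove`
(`k` elements), `del_one`, induction hypothesis for `sub Q y.succAbove` (`sub (sub Q s) ι = sub Q (s ∘ ι)`
holds by `rfl`). -/
theorem del_set (f : ℕ) (t : ℝ) (ht : 0 ≤ t) (ht1 : t ≤ 1) (W0 : ℝ) (N' k : ℕ) : ∀ (N : ℕ), N' + k = N →
    ∀ (Q : Rel (N + 1)) (lab : Fin (N + 1) → ℕ), Nat' Q lab → ∀ Y : Finset (Fin (N + 1)), Y.card = k →
    (∀ ι : Fin (N' + 1) → Fin (N + 1), Function.Injective ι → Wr (sub Q ι) (lab ∘ ι) t ≤ W0) →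
    (∑ g ∈ LE Q with (∀ a ∈ Y, g.symm a ∈ Bf f Q g), t ^ des lab g) ≤ (f : ℝ) ^ k * W0 := by
  induction k with
  | zero =>
    intro N hN Q lab hn Y hY hW
    obtain rfl : N' = N := hN
    rw [pow_zero, one_mul]
    exact (Finset.sum_le_sum_of_subset_of_nonneg (Finset.filter_subset _ _)
      fun _ _ _ => pow_nonneg ht _).trans (hW id Function.injective_id)
  | succ k ih =>
    intro N hN Q lab hn Y hY hW
    obtain ⟨M, rfl⟩ : ∃ M, N = M + 1 := ⟨N' + k, by omega⟩
    have hM : N' + k = M := by omega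
    have hne : Y.Nonempty := by
      rw [← Finset.card_pos, hY]
      omega
    obtain ⟨y, hy, hmax⟩ := Y.exists_max_image lab hne
    have hcard := card_pre Y y hy hY
    set Y' : Finset (Fin (M + 1)) :=
      (Finset.univ : Finset (Fin (M + 1))).filter fun a => y.succAbove a ∈ Y with hY'
    have hlt : ∀ a ∈ Y', lab (y.succAbove a) < lab y := by
      intro a ha
      refine lt_of_le_of_ne (hmax _ (Finset.mem_filter.1 ha).2) fun h => ?_
      exact Fin.succAbove_ne y a (hn.inj h)
    have h1 := del_one (f := f) hn t ht ht1 y Y' hlt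
    have h2 := ih M hM (sub Q y.succAbove) (lab ∘ y.succAbove)
      (sub_nat hn _ Fin.succAbove_right_injective) Y' hcard
      (fun ι hι => hW (y.succAbove ∘ ι) (Fin.succAbove_right_injective.comp hι))
    have h3 : (∑ g ∈ LE Q with (∀ a ∈ Y, g.symm a ∈ Bf f Q g), t ^ des lab g) ≤
        ∑ g ∈ LE Q with ((∀ a ∈ Y', g.symm (y.succAbove a) ∈ Bf f Q g) ∧ g.symm y ∈ Bf f Q g),
          t ^ des lab g := by
      refine Finset.sum_le_sum_of_subset_of_nonneg (fun g hg => ?_) fun _ _ _ => pow_nonneg ht _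
      obtain ⟨hg1, hg2⟩ := Finset.mem_filter.1 hg
      exact Finset.mem_filter.2 ⟨hg1, fun a ha => hg2 _ (Finset.mem_filter.1 ha).2, hg2 y hy⟩
    calc (∑ g ∈ LE Q with (∀ a ∈ Y, g.symm a ∈ Bf f Q g), t ^ des lab g)
        ≤ _ := h3
      _ ≤ f * ∑ g' ∈ LE (sub Q y.succAbove) with
          (∀ a ∈ Y', g'.symm a ∈ Bf f (sub Q y.succAbove) g'), t ^ des (lab ∘ y.succAbove) g' := h1
      _ ≤ f * ((f : ℝ) ^ k * W0) := mul_le_mul_of_nonneg_left h2 (Nat.cast_nonneg _)
      _ = (f : ℝ) ^ (k + 1) * W0 := by ring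

/-- RARE. Words with at least `k` positions in `Bf`: choose `k` of the letters standing there. -/
theorem rare {N N' k : ℕ} (hk : N' + k = N) (f : ℕ) (t : ℝ) (ht : 0 ≤ t) (ht1 : t ≤ 1) {Q : Rel (N + 1)}
    {lab : Fin (N + 1) → ℕ} (hn : Nat' Q lab) (W0 : ℝ)
    (hW : ∀ ι : Fin (N' + 1) → Fin (N + 1), Function.Injective ι → Wr (sub Q ι) (lab ∘ ι) t ≤ W0) :
    (∑ g ∈ LE Q with k ≤ (Bf f Q g).card, t ^ des lab g) ≤ (N + 1).choose k * (f : ℝ) ^ k * W0 := by
  have h1 : (∑ g ∈ LE Q with k ≤ (Bf f Q g).card, t ^ des lab g) ≤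
      ∑ g ∈ LE Q, ∑ Y ∈ Finset.powersetCard k (Finset.univ : Finset (Fin (N + 1))),
        if (∀ a ∈ Y, g.symm a ∈ Bf f Q g) then t ^ des lab g else 0 := by
    rw [Finset.sum_filter]
    refine Finset.sum_le_sum fun g _ => ?_
    split_ifs with hg
    · obtain ⟨B, hB, hBk⟩ := Finset.exists_subset_card_eq hg
      have hmem : B.map g.toEmbedding ∈ Finset.powersetCard k (Finset.univ : Finset (Fin (N + 1))) := by
        rw [Finset.mem_powersetCard]
        exact ⟨Finset.subset_univ _, by rw [Finset.card_map, hBk]⟩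
      have hcond : ∀ a ∈ B.map g.toEmbedding, g.symm a ∈ Bf f Q g := by
        intro a ha
        obtain ⟨b, hb, rfl⟩ := Finset.mem_map.1 ha
        rw [Equiv.toEmbedding_apply, Equiv.symm_apply_apply]
        exact hB hb
      calc t ^ des lab g = if (∀ a ∈ B.map g.toEmbedding, g.symm a ∈ Bf f Q g) then
            t ^ des lab g else 0 := by rw [if_pos hcond]
        _ ≤ _ := Finset.single_le_sum (f := fun Y => if (∀ a ∈ Y, g.symm a ∈ Bf f Q g) then
            t ^ des lab g else 0) (fun Y _ => by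
              split_ifs
              · exact pow_nonneg ht _
              · exact le_rfl) hmem
    · exact Finset.sum_nonneg fun Y _ => by
        split_ifs
        · exact pow_nonneg ht _
        · exact le_rfl
  rw [Finset.sum_comm] at h1
  refine h1.trans ?_
  have h2 : ∀ Y ∈ Finset.powersetCard k (Finset.univ : Finset (Fin (N + 1))),
      (∑ g ∈ LE Q, if (∀ a ∈ Y, g.symm a ∈ Bf f Q g) then t ^ des lab g else 0) ≤
        (f : ℝ) ^ k * W0 := by
    intro Y hY
    rw [← Finset.sum_filter]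
    exact del_set f t ht ht1 W0 N' k N hk Q lab hn Y (Finset.mem_powersetCard.1 hY).2 hW
  refine (Finset.sum_le_sum h2).trans ?_
  rw [Finset.sum_const, Finset.card_powersetCard, Finset.card_univ, Fintype.card_fin, nsmul_eq_mul,
    mul_assoc]

end Pool.SC45
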