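import Pool.Agent.SC45.Defs

set_option autoImplicit false

/-!
# SC45/OmSub: the order polynomial of a restriction
-/

namespace Pool.SC45

open Pool.HB45

open Finset in
/-- largest value of `f` at or below `z` -/
private noncomputable def fhat {n n' M : ℕ} (Q : Rel n) (ι : Fin n' → Fin n)
    (f : Fin n' → Fin (M + 1)) (z : Fin n) : ℕ := by
  classical
  exact (univ.filter fun a : Fin n' => ι a = z ∨ Q (ι a) z).sup fun a => (f a).val

private theorem fhat_le {n n' M : ℕ} (Q : Rel n) (ι : Fin n' → Fin n)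
    (f : Fin n' → Fin (M + 1)) (z : Fin n) : fhat Q ι f z ≤ M := by
  classical
  unfold fhat
  refine Finset.sup_le fun a _ => ?_
  have := (f a).isLt
  omega

private theorem fhat_mono {n n' M : ℕ} {Q : Rel n} (hQ : Tr Q) (ι : Fin n' → Fin n)
    (f : Fin n' → Fin (M + 1)) {x y : Fin n} (h : Q x y) : fhat Q ι f x ≤ fhat Q ι f y := by
  classical
  unfold fhat
  apply Finset.sup_mono
  intro a ha
  rw [Finset.mem_filter] at ha ⊢
  refine ⟨ha.1, Or.inr ?_⟩
  rcases ha.2 with h1 | h1
  · rw [h1]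
    exact h
  · exact hQ _ _ _ h1 h

private theorem fhat_eq {n n' M : ℕ} {Q : Rel n} (ι : Fin n' → Fin n)
    (hι : Function.Injective ι) (f : Fin n' → Fin (M + 1))
    (hf : ∀ a b, sub Q ι a b → f a ≤ f b) (a : Fin n') : fhat Q ι f (ι a) = (f a).val := by
  classical
  unfold fhat
  apply le_antisymm
  · refine Finset.sup_le fun b hb => ?_
    rw [Finset.mem_filter] at hb
    rcases hb.2 with h1 | h1
    · rw [hι h1]
    · exact hf b a h1
  · exact Finset.le_sup (f := fun a => (f a).val)
      (Finset.mem_filter.2 ⟨Finset.mem_univ a, Or.inl rfl⟩)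

open Classical in
/-- the offset -/
private noncomputable def off {n n' q : ℕ} (ι : Fin n' → Fin n)
    (ρ : {z : Fin n // z ∉ Set.range ι} → Fin q) (z : Fin n) : ℕ :=
  if h : z ∉ Set.range ι then (ρ ⟨z, h⟩).val else 0

private theorem off_lt {n n' q : ℕ} (hq : 1 ≤ q) (ι : Fin n' → Fin n)
    (ρ : {z : Fin n // z ∉ Set.range ι} → Fin q) (z : Fin n) : off ι ρ z < q := by
  unfold off
  split
  · exact (ρ _).isLt
  · omega

private theorem F_lt {n n' h : ℕ} {Q : Rel n} {κ : Fin n → ℕ} (hκ : Lev h Q κ)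
    (ι : Fin n' → Fin n) {q M : ℕ} (hq : 1 ≤ q) (f : Fin n' → Fin (M + 1))
    (ρ : {z : Fin n // z ∉ Set.range ι} → Fin q) (z : Fin n) :
    fhat Q ι f z + q * κ z + off ι ρ z < M + q * h + 1 := by
  have h1 := fhat_le Q ι f z
  have h2 := off_lt hq ι ρ z
  have h3 : q * κ z + q ≤ q * h := by
    have h4 : κ z + 1 ≤ h := hκ.lt z
    calc q * κ z + q = q * (κ z + 1) := by ring
      _ ≤ q * h := Nat.mul_le_mul_left q h4
  omega

/-- `(f, ρ) ↦ F`, `F z = fhat z + q κ z + ρ z`, `fhat z` = largest `f a` with `ι a = z` or `Q (ι a) z`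
(`0` if there is none), `ρ z = 0` for `z` in the range of `ι`, `ρ z < q` otherwise. -/
theorem Om_sub {n n' h : ℕ} {Q : Rel n} {κ : Fin n → ℕ} (hκ : Lev h Q κ) (hh : 1 ≤ h) (hQ : Tr Q)
    (ι : Fin n' → Fin n) (hι : Function.Injective ι) (q M : ℕ) (hq : 1 ≤ q) :
    q ^ (n - n') * Om (sub Q ι) M ≤ Om Q (M + q * h) := by
  classical
  have hcard : Fintype.card ({z : Fin n // z ∉ Set.range ι} → Fin q) = q ^ (n - n') := by
    rw [Fintype.card_fun, Fintype.card_fin]
    congr 1
    have h1 : Fintype.card {z : Fin n // z ∉ Set.range ι} =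
        Fintype.card (Fin n) - Fintype.card {z : Fin n // z ∈ Set.range ι} :=
      Fintype.card_subtype_compl _
    have h2 : Fintype.card {z : Fin n // z ∈ Set.range ι} = n' := by
      have := Set.card_range_of_injective hι
      rw [Fintype.card_fin] at this
      refine Eq.trans ?_ this
      exact Fintype.card_congr (Equiv.refl _)
    rw [h1, h2, Fintype.card_fin]
  unfold Om
  rw [mul_comm, ← hcard, ← Finset.card_univ, ← Finset.card_product]
  apply Finset.card_le_card_of_injOn
    (fun p : (Fin n' → Fin (M + 1)) × ({z : Fin n // z ∉ Set.range ι} → Fin q) =>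
      fun z : Fin n => (⟨fhat Q ι p.1 z + q * κ z + off ι p.2 z,
        F_lt hκ ι hq p.1 p.2 z⟩ : Fin (M + q * h + 1)))
  · intro p hp
    rw [Finset.mem_coe, Finset.mem_filter]
    refine ⟨Finset.mem_univ _, fun x y hxy => ?_⟩
    rw [Fin.mk_le_mk]
    have h1 := fhat_mono hQ ι p.1 hxy
    have h2 := off_lt hq ι p.2 x
    have h3 : q * κ x + q ≤ q * κ y := by
      have h4 : κ x + 1 ≤ κ y := hκ.mono _ _ hxy
      calc q * κ x + q = q * (κ x + 1) := by ring
        _ ≤ q * κ y := Nat.mul_le_mul_left q h4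
    omega
  · intro p hp p' hp' hpp
    rw [Finset.mem_coe, Finset.mem_product, Finset.mem_filter] at hp hp'
    have hz : ∀ z, fhat Q ι p.1 z + q * κ z + off ι p.2 z =
        fhat Q ι p'.1 z + q * κ z + off ι p'.2 z := fun z => by
      have := congrFun hpp z
      simpa using this
    have h1 : p.1 = p'.1 := by
      funext a
      have h2 := hz (ι a)
      rw [fhat_eq ι hι p.1 hp.1.2 a, fhat_eq ι hι p'.1 hp'.1.2 a] at h2
      have h3 : ∀ ρ : {z : Fin n // z ∉ Set.range ι} → Fin q, off ι ρ (ι a) = 0 := by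
        intro ρ
        unfold off
        rw [dif_neg (fun h => h ⟨a, rfl⟩)]
      rw [h3, h3] at h2
      apply Fin.ext
      omega
    refine Prod.ext h1 ?_
    funext z
    have h2 := hz z.1
    rw [h1] at h2
    have h3 : ∀ ρ : {z : Fin n // z ∉ Set.range ι} → Fin q, off ι ρ z.1 = (ρ z).val := by
      intro ρ
      unfold off
      rw [dif_pos z.2]
    rw [h3, h3] at h2
    apply Fin.ext
    omega

end Pool.SC45
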