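import Pool.Agent.SC45.OmFS
import Pool.Agent.SC45.OmSub

/-!
# SC45/OmB: elementary inequalities for the order polynomial

`Om_floor`, `Om_shift` are proved in `OmFS` (helper73), `Om_sub` in `OmSub` (helper3).
-/
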