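import Pool.Agent.SC45.OmA
import Pool.Agent.SC45.OmB

set_option autoImplicit false

/-!
# SC45/OmC: the order polynomial against `#LE`
-/

namespace Pool.SC45

open Pool.HB45 Filter Topology

theorem OmC_tend {N : ℕ} {Q : Rel (N + 1)} {lab : Fin (N + 1) → ℕ} (hn : Nat' Q lab)
    (u : ℕ → ℕ) (c : ℝ) (hu : Tendsto (fun q : ℕ => (u q : ℝ) / q) atTop (𝓝 c)) (hc : 0 < c) :
    Tendsto (fun q : ℕ => (Om Q (u q) : ℝ) / (q : ℝ) ^ (N + 1)) atTop
      (𝓝 (((LE Q).card : ℝ) / ((N + 1).factorial : ℝ) * c ^ (N + 1))) := by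
  have h1 : Tendsto (fun q : ℕ => (u q : ℝ) / q * q) atTop atTop :=
    Tendsto.pos_mul_atTop hc hu tendsto_natCast_atTop_atTop
  have h2 : Tendsto (fun q : ℕ => (u q : ℝ)) atTop atTop := by
    refine h1.congr' ?_
    filter_upwards [eventually_ne_atTop 0] with q hq
    have hq' : (q : ℝ) ≠ 0 := by exact_mod_cast hq
    field_simp
  have h3 : Tendsto u atTop atTop := tendsto_natCast_atTop_iff.1 h2
  have h4 := ((Om_tendsto hn).comp h3).mul (hu.pow (N + 1))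
  refine h4.congr' ?_
  filter_upwards [eventually_ne_atTop 0, h3.eventually_ne_atTop 0] with q hq hq2
  have hq' : (q : ℝ) ≠ 0 := by exact_mod_cast hq
  have hq2' : (u q : ℝ) ≠ 0 := by exact_mod_cast hq2
  simp only [Function.comp_apply]
  rw [div_pow]
  field_simp

theorem OmC_lin (a : ℕ) (ha : 1 ≤ a) :
    Tendsto (fun q : ℕ => ((q * a - 1 : ℕ) : ℝ) / q) atTop (𝓝 (a : ℝ)) := by
  have h1 : Tendsto (fun q : ℕ => (a : ℝ) - 1 / (q : ℝ)) atTop (𝓝 ((a : ℝ) - 0)) :=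
    tendsto_const_nhds.sub tendsto_one_div_atTop_nhds_zero_nat
  rw [sub_zero] at h1
  refine h1.congr' ?_
  filter_upwards [eventually_ge_atTop 1] with q hq
  have hq' : (q : ℝ) ≠ 0 := by
    have : q ≠ 0 := by omega
    exact_mod_cast this
  have h2 : 1 ≤ q * a := Nat.one_le_iff_ne_zero.2 (by positivity)
  rw [Nat.cast_sub h2]
  push_cast
  field_simp

/-- divide `Om_floor` by `q^n`, `q → ∞` (`Om_tendsto`) -/
theorem Om_lower {N : ℕ} {Q : Rel (N + 1)} {lab : Fin (N + 1) → ℕ} (hn : Nat' Q lab) (m : ℕ) :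
    ((LE Q).card : ℝ) * ((m : ℝ) + 1) ^ (N + 1) ≤ ((N + 1).factorial : ℝ) * Om Q m := by
  have hf : (0 : ℝ) < ((N + 1).factorial : ℝ) := by exact_mod_cast Nat.factorial_pos _
  have h1 := OmC_tend hn (fun q => q * (m + 1) - 1) ((m : ℝ) + 1)
    (by simpa using OmC_lin (m + 1) (by omega)) (by positivity)
  have h2 : ((LE Q).card : ℝ) / ((N + 1).factorial : ℝ) * ((m : ℝ) + 1) ^ (N + 1) ≤ Om Q m := by
    refine le_of_tendsto h1 ?_
    filter_upwards [eventually_ge_atTop 1] with q hq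
    have hq' : (0 : ℝ) < (q : ℝ) := by exact_mod_cast hq
    rw [div_le_iff₀ (by positivity)]
    have h3 := Om_floor Q q m hq
    have h4 : ((Om Q (q * (m + 1) - 1) : ℕ) : ℝ) ≤ ((q ^ (N + 1) * Om Q m : ℕ) : ℝ) := by
      exact_mod_cast h3
    push_cast at h4
    linarith
  rw [div_mul_eq_mul_div, div_le_iff₀ hf] at h2
  linarith

/-- divide `Om_shift` by `q^n`, `q → ∞` -/
theorem Om_upper {N h : ℕ} (hh : 1 ≤ h) {Q : Rel (N + 1)} {κ lab : Fin (N + 1) → ℕ} (hκ : Lev h Q κ)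
    (hn : Nat' Q lab) (m : ℕ) :
    ((N + 1).factorial : ℝ) * Om Q m ≤ ((LE Q).card : ℝ) * ((m : ℝ) + h) ^ (N + 1) := by
  have hf : (0 : ℝ) < ((N + 1).factorial : ℝ) := by exact_mod_cast Nat.factorial_pos _
  have hh' : (1 : ℝ) ≤ (h : ℝ) := by exact_mod_cast hh
  have h1 := OmC_tend hn (fun q => q * (m + h) - 1) ((m : ℝ) + h)
    (by simpa using OmC_lin (m + h) (by omega)) (by positivity)
  have h2 : (Om Q m : ℝ) ≤ ((LE Q).card : ℝ) / ((N + 1).factorial : ℝ) * ((m : ℝ) + h) ^ (N + 1) := by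
    refine ge_of_tendsto h1 ?_
    filter_upwards [eventually_ge_atTop 1] with q hq
    have hq' : (0 : ℝ) < (q : ℝ) := by exact_mod_cast hq
    rw [le_div_iff₀ (by positivity)]
    have h3 := Om_shift hκ hh q m hq
    have h4 : ((q ^ (N + 1) * Om Q m : ℕ) : ℝ) ≤ ((Om Q (q * (m + h) - 1) : ℕ) : ℝ) := by
      exact_mod_cast h3
    push_cast at h4
    linarith
  rw [div_mul_eq_mul_div, le_div_iff₀ hf] at h2
  linarith

/-- `Om_sub` with `M = q h`, divided by `q^n h^(n')`, `q → ∞` -/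
theorem card_sub_le {N N' h : ℕ} (hh : 1 ≤ h) {Q : Rel (N + 1)} {κ lab : Fin (N + 1) → ℕ}
    (hκ : Lev h Q κ) (hn : Nat' Q lab) (hQ : Tr Q) (ι : Fin (N' + 1) → Fin (N + 1))
    (hι : Function.Injective ι) :
    ((LE (sub Q ι)).card : ℝ) * ((N + 1).factorial : ℝ) ≤
      2 ^ (N + 1) * (h : ℝ) ^ (N - N') * ((N' + 1).factorial : ℝ) * (LE Q).card := by
  have hf : (0 : ℝ) < ((N + 1).factorial : ℝ) := by exact_mod_cast Nat.factorial_pos _
  have hf' : (0 : ℝ) < ((N' + 1).factorial : ℝ) := by exact_mod_cast Nat.factorial_pos _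
  have hh' : (0 : ℝ) < (h : ℝ) := by exact_mod_cast hh
  have hNN : N' ≤ N := by
    have := Fintype.card_le_of_injective ι hι
    simp only [Fintype.card_fin] at this
    omega
  have hu1 : Tendsto (fun q : ℕ => ((q * h : ℕ) : ℝ) / q) atTop (𝓝 (h : ℝ)) := by
    refine tendsto_const_nhds.congr' ?_
    filter_upwards [eventually_ne_atTop 0] with q hq
    have hq' : (q : ℝ) ≠ 0 := by exact_mod_cast hq
    push_cast
    field_simp
  have hu2 : Tendsto (fun q : ℕ => ((q * h + q * h : ℕ) : ℝ) / q) atTop (𝓝 (2 * (h : ℝ))) := by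
    refine tendsto_const_nhds.congr' ?_
    filter_upwards [eventually_ne_atTop 0] with q hq
    have hq' : (q : ℝ) ≠ 0 := by exact_mod_cast hq
    push_cast
    field_simp
    ring
  have h1 := OmC_tend (sub_nat hn ι hι) (fun q => q * h) (h : ℝ) hu1 hh'
  have h2 := OmC_tend hn (fun q => q * h + q * h) (2 * (h : ℝ)) hu2 (by positivity)
  have h3 : ((LE (sub Q ι)).card : ℝ) / ((N' + 1).factorial : ℝ) * (h : ℝ) ^ (N' + 1) ≤
      ((LE Q).card : ℝ) / ((N + 1).factorial : ℝ) * (2 * (h : ℝ)) ^ (N + 1) := by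
    refine le_of_tendsto_of_tendsto h1 h2 ?_
    filter_upwards [eventually_ge_atTop 1] with q hq
    have hq' : (0 : ℝ) < (q : ℝ) := by exact_mod_cast hq
    have h4 := Om_sub hκ hh hQ ι hι q (q * h) hq
    have e5 : N + 1 - (N' + 1) = N - N' := by omega
    rw [e5] at h4
    have h5 : ((q ^ (N - N') * Om (sub Q ι) (q * h) : ℕ) : ℝ) ≤
        ((Om Q (q * h + q * h) : ℕ) : ℝ) := by exact_mod_cast h4
    have h6 : (q : ℝ) ^ (N + 1) = (q : ℝ) ^ (N - N') * (q : ℝ) ^ (N' + 1) := by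
      rw [← pow_add]
      congr 1
      omega
    rw [div_le_div_iff₀ (by positivity) (by positivity), h6]
    push_cast at h5
    have h7 : (0 : ℝ) < (q : ℝ) ^ (N' + 1) := by positivity
    calc (Om (sub Q ι) (q * h) : ℝ) * ((q : ℝ) ^ (N - N') * (q : ℝ) ^ (N' + 1))
        = ((q : ℝ) ^ (N - N') * (Om (sub Q ι) (q * h) : ℝ)) * (q : ℝ) ^ (N' + 1) := by ring
      _ ≤ (Om Q (q * h + q * h) : ℝ) * (q : ℝ) ^ (N' + 1) :=
          mul_le_mul_of_nonneg_right h5 h7.le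
  have h8 : (2 * (h : ℝ)) ^ (N + 1) = 2 ^ (N + 1) * (h : ℝ) ^ (N - N') * (h : ℝ) ^ (N' + 1) := by
    rw [mul_pow, mul_assoc, ← pow_add]
    congr 2
    omega
  rw [h8] at h3
  have h9 : (0 : ℝ) < (h : ℝ) ^ (N' + 1) := by positivity
  have h10 : ((LE (sub Q ι)).card : ℝ) / ((N' + 1).factorial : ℝ) ≤
      ((LE Q).card : ℝ) / ((N + 1).factorial : ℝ) * (2 ^ (N + 1) * (h : ℝ) ^ (N - N')) := by
    refine le_of_mul_le_mul_right ?_ h9
    linarith
  rw [div_mul_eq_mul_div, div_le_div_iff₀ hf' hf] at h10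
  linarith

end Pool.SC45
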