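import Pool.Agent.HB45.Defs2

set_option autoImplicit false

/-!
# SC45/Defs: definitions for 'short chains' (n ≥ C h² log n implies unimodal)

Words, `LE`, `des`, `Lev`, `Nat'`, `Wp`, `Wr` as in `HB45/Defs`, `HB45/Defs2`; `n = N + 1` letters.
-/

open Polynomial

namespace Pool.SC45

open Pool.HB45

/-- number of order preserving maps of `Q` to `{0, …, m}` -/
noncomputable def Om {n : ℕ} (Q : Rel n) (m : ℕ) : ℕ := by
  classical
  exact (Finset.univ.filter fun f : Fin n → Fin (m + 1) => ∀ a b, Q a b → f a ≤ f b).card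

/-- transitivity -/
def Tr {n : ℕ} (Q : Rel n) : Prop := ∀ a b c, Q a b → Q b c → Q a c

/-- restriction of a relation along a map of the letters -/
def sub {n n' : ℕ} (Q : Rel n) (ι : Fin n' → Fin n) : Rel n' := fun a b => Q (ι a) (ι b)

theorem sub_lev {n n' h : ℕ} {Q : Rel n} {κ : Fin n → ℕ} (hκ : Lev h Q κ) (ι : Fin n' → Fin n) :
    Lev h (sub Q ι) (κ ∘ ι) :=
  ⟨fun a => hκ.lt (ι a), fun _ _ hab => hκ.mono _ _ hab⟩

theorem sub_nat {n n' : ℕ} {Q : Rel n} {lab : Fin n → ℕ} (hn : Nat' Q lab) (ι : Fin n' → Fin n)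
    (hι : Function.Injective ι) : Nat' (sub Q ι) (lab ∘ ι) :=
  ⟨hn.inj.comp hι, fun _ _ hab => hn.mono _ _ hab⟩

theorem sub_tr {n n' : ℕ} {Q : Rel n} (hQ : Tr Q) (ι : Fin n' → Fin n) : Tr (sub Q ι) :=
  fun _ _ _ hab hbc => hQ _ _ _ hab hbc

/-- positions with a lower letter at distance at most `f` in front of them -/
noncomputable def Bf {n : ℕ} (f : ℕ) (Q : Rel n) (g : Equiv.Perm (Fin n)) : Finset (Fin n) := by
  classical
  exact Finset.univ.filter fun p : Fin n => ∃ q : Fin n, q < p ∧ p.val ≤ q.val + f ∧ Q (g q) (g p)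

/-- `K s = e^s ((1 - e^(-s))/s)^(n+1)`, `n = N + 1` (the Eulerian value is `~ n! K s`) -/
noncomputable def KK (N : ℕ) (s : ℝ) : ℝ := Real.exp s * ((1 - Real.exp (-s)) / s) ^ (N + 2)

end Pool.SC45
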