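import Pool.Agent.SC45.Defs

set_option autoImplicit false

/-!
# SC45/DelOne: deleting one letter that has a lower letter close in front of it
-/

namespace Pool.SC45

open Pool.HB45

lemma mem_Bf {n f : ℕ} {Q : Rel n} {g : Equiv.Perm (Fin n)} {p : Fin n} :
    p ∈ Bf f Q g ↔ ∃ q : Fin n, q < p ∧ p.val ≤ q.val + f ∧ Q (g q) (g p) := by
  classical
  unfold Bf
  simp

/-- the word without the letter `y` -/
lemma exists_del {N : ℕ} (y : Fin (N + 2)) (g : Equiv.Perm (Fin (N + 2))) :
    ∃ g' : Equiv.Perm (Fin (N + 1)), ∀ i, y.succAbove (g' i) = g ((g.symm y).succAbove i) := by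
  have h1 : ∀ i : Fin (N + 1), ∃ j : Fin (N + 1), y.succAbove j = g ((g.symm y).succAbove i) := by
    intro i
    apply Fin.exists_succAbove_eq
    intro h
    have h2 : (g.symm y).succAbove i = g.symm y := by
      rw [Equiv.eq_symm_apply]
      exact h
    exact Fin.succAbove_ne _ _ h2
  choose d hd using h1
  have hinj : Function.Injective d := by
    intro i j hij
    have h2 : g ((g.symm y).succAbove i) = g ((g.symm y).succAbove j) := by
      rw [← hd, ← hd, hij]
    exact Fin.succAbove_right_injective (g.injective h2)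
  exact ⟨Equiv.ofBijective d (Finite.injective_iff_bijective.1 hinj), fun i => hd i⟩

lemma sa_val {N : ℕ} (p : Fin (N + 2)) (i : Fin (N + 1)) :
    (i.val < p.val ∧ (p.succAbove i).val = i.val) ∨ (p.val ≤ i.val ∧ (p.succAbove i).val = i.val + 1) := by
  rcases lt_or_ge i.castSucc p with h | h
  · left
    exact ⟨h, by rw [Fin.succAbove_of_castSucc_lt _ _ h]; rfl⟩
  · right
    exact ⟨h, by rw [Fin.succAbove_of_le_castSucc _ _ h]; rfl⟩

lemma des_del {N : ℕ} {lab : Fin (N + 2) → ℕ} (y : Fin (N + 2)) (g : Equiv.Perm (Fin (N + 2)))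
    (g' : Equiv.Perm (Fin (N + 1))) (hg : ∀ i, y.succAbove (g' i) = g ((g.symm y).succAbove i)) :
    des (lab ∘ y.succAbove) g' ≤ des lab g := by
  classical
  obtain ⟨p, hp⟩ : ∃ p, p = g.symm y := ⟨_, rfl⟩
  have hgp : g p = y := by rw [hp, g.apply_symm_apply]
  rw [← hp] at hg
  let φ : Fin N → Fin (N + 1) := fun i => if i.val + 1 < p.val then i.castSucc else
    if p.val < i.val + 1 then i.succ else
      if lab y < lab (g i.castSucc.castSucc) then i.castSucc else i.succ
  have hφ : ∀ i, (i.val + 1 < p.val ∧ (φ i).val = i.val) ∨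
      (p.val < i.val + 1 ∧ (φ i).val = i.val + 1) ∨
      (i.val + 1 = p.val ∧ ((φ i).val = i.val ∨ (φ i).val = i.val + 1)) := by
    intro i
    by_cases h1 : i.val + 1 < p.val
    · left
      exact ⟨h1, by simp only [φ, if_pos h1]; rfl⟩
    · by_cases h2 : p.val < i.val + 1
      · right; left
        exact ⟨h2, by simp only [φ, if_neg h1, if_pos h2]; rfl⟩
      · right; right
        refine ⟨by omega, ?_⟩
        by_cases h3 : lab y < lab (g i.castSucc.castSucc)
        · left
          simp only [φ, if_neg h1, if_neg h2, if_pos h3]; rfl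
        · right
          simp only [φ, if_neg h1, if_neg h2, if_neg h3]; rfl
  unfold des
  apply Finset.card_le_card_of_injOn φ
  · intro i hi
    simp only [Finset.coe_filter, Finset.mem_univ, true_and, Set.mem_ofPred_eq, Function.comp_apply,
      hg] at hi ⊢
    by_cases h1 : i.val + 1 < p.val
    · have e0 : φ i = i.castSucc := by simp only [φ, if_pos h1]
      have e1 : p.succAbove i.castSucc = i.castSucc.castSucc := by
        apply Fin.succAbove_of_castSucc_lt
        show i.val < p.val
        omega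
      have e2 : p.succAbove i.succ = i.castSucc.succ := by
        rw [Fin.succAbove_of_castSucc_lt _ _ (show i.succ.val < p.val by simpa using h1)]
        rfl
      rw [e1, e2] at hi
      rw [e0]
      exact hi
    · by_cases h2 : p.val < i.val + 1
      · have e0 : φ i = i.succ := by simp only [φ, if_neg h1, if_pos h2]
        have e1 : p.succAbove i.castSucc = i.succ.castSucc := by
          rw [Fin.succAbove_of_le_castSucc _ _ (show p.val ≤ i.castSucc.val by simp; omega)]
          rfl
        have e2 : p.succAbove i.succ = i.succ.succ := by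
          rw [Fin.succAbove_of_le_castSucc _ _ (show p.val ≤ i.succ.val by simp; omega)]
        rw [e1, e2] at hi
        rw [e0]
        exact hi
      · have h4 : i.val + 1 = p.val := by omega
        have e1 : p.succAbove i.castSucc = i.castSucc.castSucc := by
          apply Fin.succAbove_of_castSucc_lt
          show i.val < p.val
          omega
        have e2 : p.succAbove i.succ = i.succ.succ := by
          rw [Fin.succAbove_of_le_castSucc _ _ (show p.val ≤ i.succ.val by simp; omega)]
        have e3 : i.castSucc.succ = p := Fin.ext (by simpa using h4)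
        have e4 : i.succ.castSucc = p := Fin.ext (by simpa using h4)
        rw [e1, e2] at hi
        by_cases h3 : lab y < lab (g i.castSucc.castSucc)
        · have e0 : φ i = i.castSucc := by simp only [φ, if_neg h1, if_neg h2, if_pos h3]
          rw [e0, e3, hgp]
          exact h3
        · have e0 : φ i = i.succ := by simp only [φ, if_neg h1, if_neg h2, if_neg h3]
          rw [e0, e4, hgp]
          omega
  · intro i _ j _ hij
    have hij' : (φ i).val = (φ j).val := by rw [hij]
    apply Fin.ext
    rcases hφ i with h1 | h1 | h1 <;> rcases hφ j with h2 | h2 | h2 <;> omega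

theorem del_one {N f : ℕ} {Q : Rel (N + 2)} {lab : Fin (N + 2) → ℕ} (hn : Nat' Q lab) (t : ℝ)
    (ht : 0 ≤ t) (ht1 : t ≤ 1) (y : Fin (N + 2)) (Y : Finset (Fin (N + 1)))
    (hY : ∀ a ∈ Y, lab (y.succAbove a) < lab y) :
    (∑ g ∈ LE Q with ((∀ a ∈ Y, g.symm (y.succAbove a) ∈ Bf f Q g) ∧ g.symm y ∈ Bf f Q g),
      t ^ des lab g) ≤
    f * ∑ g' ∈ LE (sub Q y.succAbove) with (∀ a ∈ Y, g'.symm a ∈ Bf f (sub Q y.succAbove) g'),
      t ^ des (lab ∘ y.succAbove) g' := by
  classical
  choose del hdel using exists_del y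
  have hmaps : ∀ g ∈ (LE Q).filter (fun g => (∀ a ∈ Y, g.symm (y.succAbove a) ∈ Bf f Q g) ∧
      g.symm y ∈ Bf f Q g), del g ∈ (LE (sub Q y.succAbove)).filter
        (fun g' => ∀ a ∈ Y, g'.symm a ∈ Bf f (sub Q y.succAbove) g') := by
    intro g hg
    rw [Finset.mem_filter, mem_LE] at hg ⊢
    obtain ⟨hg1, hg2, hg3⟩ := hg
    refine ⟨?_, ?_⟩
    · intro i j hij
      unfold sub at hij
      rw [hdel, hdel] at hij
      exact Fin.succAbove_lt_succAbove_iff.1 (hg1 _ _ hij)
    · intro a ha
      have h1 := hg2 a ha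
      rw [mem_Bf] at h1 ⊢
      obtain ⟨q, hq1, hq2, hq3⟩ := h1
      rw [g.apply_symm_apply] at hq3
      have hqp : q ≠ g.symm y := by
        rintro rfl
        rw [g.apply_symm_apply] at hq3
        have h2 := hn.mono _ _ hq3
        have h3 := hY a ha
        omega
      obtain ⟨j, hj⟩ := Fin.exists_succAbove_eq hqp
      have hpa : g.symm (y.succAbove a) = (g.symm y).succAbove ((del g).symm a) := by
        rw [g.symm_apply_eq, ← hdel, (del g).apply_symm_apply]
      rw [hpa, ← hj] at hq1 hq2
      have hji : j < (del g).symm a := Fin.succAbove_lt_succAbove_iff.1 hq1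
      refine ⟨j, hji, ?_, ?_⟩
      · have hji' : j.val < ((del g).symm a).val := hji
        rcases sa_val (g.symm y) j with h1 | h1 <;>
          rcases sa_val (g.symm y) ((del g).symm a) with h2 | h2 <;> omega
      · unfold sub
        rw [hdel, hj, (del g).apply_symm_apply]
        exact hq3
  have hstep : ∀ g ∈ (LE Q).filter (fun g => (∀ a ∈ Y, g.symm (y.succAbove a) ∈ Bf f Q g) ∧
      g.symm y ∈ Bf f Q g), t ^ des lab g ≤ t ^ des (lab ∘ y.succAbove) (del g) := by
    intro g _
    exact pow_le_pow_of_le_one ht ht1 (des_del y g (del g) (hdel g))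
  refine (Finset.sum_le_sum hstep).trans ?_
  rw [← Finset.sum_fiberwise_of_maps_to hmaps, Finset.mul_sum]
  apply Finset.sum_le_sum
  intro g' _
  have h1 : ∀ g ∈ Finset.filter (fun g => del g = g') ((LE Q).filter (fun g =>
      (∀ a ∈ Y, g.symm (y.succAbove a) ∈ Bf f Q g) ∧ g.symm y ∈ Bf f Q g)),
      t ^ des (lab ∘ y.succAbove) (del g) = t ^ des (lab ∘ y.succAbove) g' := by
    intro g hg
    rw [(Finset.mem_filter.1 hg).2]
  rw [Finset.sum_congr rfl h1, Finset.sum_const, nsmul_eq_mul]
  apply mul_le_mul_of_nonneg_right _ (pow_nonneg ht _)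
  norm_cast
  -- the number of positions
  let L : Finset (Fin (N + 1)) := Finset.univ.filter (fun i => Q (y.succAbove (g' i)) y)
  let m : ℕ := L.sup (fun i => i.val)
  have hcard : (Finset.Ioc m (m + f)).card = f := by
    rw [Nat.card_Ioc]; omega
  rw [← hcard]
  apply Finset.card_le_card_of_injOn (fun g => (g.symm y).val)
  · intro g hg
    have hg := Finset.mem_coe.1 hg
    rw [Finset.mem_filter, Finset.mem_filter, mem_LE] at hg
    obtain ⟨⟨hg1, -, hg3⟩, hg4⟩ := hg
    rw [mem_Bf] at hg3
    obtain ⟨q, hq1, hq2, hq3⟩ := hg3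
    rw [g.apply_symm_apply] at hq3
    obtain ⟨j, hj⟩ := Fin.exists_succAbove_eq (ne_of_lt hq1)
    have hjL : j ∈ L := by
      rw [Finset.mem_filter]
      refine ⟨Finset.mem_univ _, ?_⟩
      rw [← hg4, hdel, hj]
      exact hq3
    have hjm : j.val ≤ m := Finset.le_sup (f := fun i : Fin (N + 1) => i.val) hjL
    have hmlt : m < (g.symm y).val := by
      have hne : L.Nonempty := ⟨j, hjL⟩
      obtain ⟨i, hiL, him⟩ := Finset.exists_mem_eq_sup L hne (fun i : Fin (N + 1) => i.val)
      have h2 : Q (g ((g.symm y).succAbove i)) (g (g.symm y)) := by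
        rw [← hdel, hg4, g.apply_symm_apply]
        exact (Finset.mem_filter.1 hiL).2
      have h3 : ((g.symm y).succAbove i).val < (g.symm y).val := hg1 _ _ h2
      show L.sup (fun i => i.val) < _
      rw [him]
      rcases sa_val (g.symm y) i with h4 | h4 <;> omega
    have hq1' : q.val < (g.symm y).val := hq1
    rw [← hj] at hq2 hq1'
    rw [Finset.coe_Ioc, Set.mem_Ioc]
    refine ⟨hmlt, ?_⟩
    show (g.symm y).val ≤ m + f
    rcases sa_val (g.symm y) j with h4 | h4 <;> omega
  · intro g₁ h₁ g₂ h₂ h12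
    have h₁ := (Finset.mem_filter.1 (Finset.mem_coe.1 h₁)).2
    have h₂ := (Finset.mem_filter.1 (Finset.mem_coe.1 h₂)).2
    have hp : g₁.symm y = g₂.symm y := Fin.ext h12
    apply Equiv.ext
    intro x
    by_cases hx : x = g₁.symm y
    · rw [hx, g₁.apply_symm_apply, hp, g₂.apply_symm_apply]
    · obtain ⟨i, hi⟩ := Fin.exists_succAbove_eq hx
      rw [← hi, ← hdel, hp, ← hdel, h₁, h₂]

end Pool.SC45
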