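import Pool.Agent.SC45.OmEq37
import Pool.Agent.SC31.OmA2
import Pool.Agent.SC31.OmA2

set_option autoImplicit false

/-!
# SC45/OmA: order polynomial and descents
-/

namespace Pool.SC45

open Pool.HB45

/-- FUNDAMENTAL THEOREM. PROOF. To an order preserving `f` belongs the word `g` that sorts the letters by
`(f a, lab a)`; it is a linear extension (`Q a b` gives `f a ≤ f b`, `lab a < lab b`). For a given
`g ∈ LE Q` the maps `f` are the sequences `0 ≤ f (g 0) ≤ … ≤ f (g N) ≤ m` with strict increase at the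
descents of `g`; there are `choose (m + N + 1 - des) (N + 1)` of them. -/
theorem Om_eq {N : ℕ} {Q : Rel (N + 1)} {lab : Fin (N + 1) → ℕ} (hn : Nat' Q lab) (m : ℕ) :
    Om Q m = ∑ g ∈ LE Q, (m + N + 1 - des lab g).choose (N + 1) := Om_eq37 hn m

/-- hence `Om Q M / M^(N+1) → #LE / (N+1)!` -/
theorem Om_tendsto {N : ℕ} {Q : Rel (N + 1)} {lab : Fin (N + 1) → ℕ} (hn : Nat' Q lab) :
    Filter.Tendsto (fun M : ℕ => (Om Q M : ℝ) / (M : ℝ) ^ (N + 1)) Filter.atTop
      (nhds (((LE Q).card : ℝ) / ((N + 1).factorial : ℝ))) := by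
  exact Pool.SC31.Om_tendsto hn

/-- hence the generating function (`Σ_m choose (m - d + n) n t^m = t^d / (1 - t)^(n+1)`) -/
theorem Wr_eq_tsum {N : ℕ} {Q : Rel (N + 1)} {lab : Fin (N + 1) → ℕ} (hn : Nat' Q lab) (t : ℝ)
    (ht : 0 ≤ t) (ht1 : t < 1) :
    Summable (fun m : ℕ => (Om Q m : ℝ) * t ^ m) ∧
      Wr Q lab t = (1 - t) ^ (N + 2) * ∑' m : ℕ, (Om Q m : ℝ) * t ^ m := by
  exact Pool.SC31.Wr_eq_tsum hn t ht ht1

end Pool.SC45
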