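import Pool.Agent.SC45.Defs

set_option autoImplicit false

/-!
# SC45/OmEq37: the fundamental theorem for order polynomials (helper37)
-/

namespace Pool.SC45

open Pool.HB45

section Count

/-- a strictly increasing sequence of natural numbers -/
theorem omEq_le {N : ℕ} (v : Fin (N + 1) → ℕ) (hv : StrictMono v) :
    ∀ k (hk : k < N + 1), k ≤ v ⟨k, hk⟩ := by
  intro k
  induction k with
  | zero => intro _; exact Nat.zero_le _
  | succ k ih =>
    intro hk
    have h1 := ih (by omega)
    have h2 : v ⟨k, by omega⟩ < v ⟨k + 1, hk⟩ := hv (by simp [Fin.lt_def])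
    omega

theorem omEq_last {N : ℕ} (v : Fin (N + 1) → ℕ) (hv : StrictMono v) :
    ∀ k (hk : k < N + 1), v ⟨N - k, by omega⟩ + k ≤ v (Fin.last N) := by
  intro k
  induction k with
  | zero => intro _; exact le_rfl
  | succ k ih =>
    intro hk
    have h1 := ih (by omega)
    have h2 : v ⟨N - (k + 1), by omega⟩ < v ⟨N - k, by omega⟩ :=
      hv (by simp only [Fin.lt_def]; omega)
    omega

theorem omEq_sum_le (d : ℕ → ℕ) (hd : ∀ i, d i ≤ 1) (i : ℕ) : ∑ j ∈ Finset.range i, d j ≤ i := by
  calc ∑ j ∈ Finset.range i, d j ≤ ∑ _j ∈ Finset.range i, 1 := Finset.sum_le_sum fun j _ => hd j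
    _ = i := by simp

theorem omEq_sum_mono (d : ℕ → ℕ) {i k : ℕ} (h : i ≤ k) :
    ∑ j ∈ Finset.range i, d j ≤ ∑ j ∈ Finset.range k, d j :=
  Finset.sum_le_sum_of_subset (Finset.range_mono h)

/-- sequences with prescribed strict steps -/
theorem omEq_count (N m : ℕ) (d : ℕ → ℕ) (hd : ∀ i, d i ≤ 1) :
    ((Finset.univ : Finset (Fin (N + 1) → Fin (m + 1))).filter
      (fun u => ∀ i : Fin N, (u i.castSucc).val + d i.val ≤ (u i.succ).val)).card =
      (m + N + 1 - ∑ j ∈ Finset.range N, d j).choose (N + 1) := by
  classical
  set P : ℕ → ℕ := fun i => ∑ j ∈ Finset.range i, d j with hP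
  have hPi : ∀ i, P i ≤ i := omEq_sum_le d hd
  have hPs : ∀ i, P (i + 1) = P i + d i := fun i => Finset.sum_range_succ d i
  have hPm : ∀ i, i ≤ N → P i ≤ P N := fun i hi => omEq_sum_mono d hi
  have hPN := hPi N
  set V : (Fin (N + 1) → Fin (m + 1)) → Fin (N + 1) → ℕ :=
    fun u i => (u i).val + i.val - P i.val with hV
  have hVmono : ∀ u : Fin (N + 1) → Fin (m + 1),
      (∀ i : Fin N, (u i.castSucc).val + d i.val ≤ (u i.succ).val) → StrictMono (V u) := by
    intro u hu
    rw [Fin.strictMono_iff_lt_succ]
    intro i
    have h1 := hu i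
    have h2 := hPi i.val
    have h3 := hPs i.val
    have h4 := hPi (i.val + 1)
    simp only [hV, Fin.val_castSucc, Fin.val_succ]
    omega
  rw [show m + N + 1 - ∑ j ∈ Finset.range N, d j = m + N + 1 - P N from rfl]
  rw [← Finset.card_range (m + N + 1 - P N), ← Finset.card_powersetCard]
  refine Finset.card_bij (fun u _ => Finset.univ.image (V u)) ?_ ?_ ?_
  · intro u hu
    rw [Finset.mem_filter] at hu
    have hmono := hVmono u hu.2
    rw [Finset.mem_powersetCard]
    constructor
    · intro x hx
      rw [Finset.mem_image] at hx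
      obtain ⟨i, _, rfl⟩ := hx
      rw [Finset.mem_range]
      have h1 : V u i ≤ V u (Fin.last N) := hmono.monotone (Fin.le_last i)
      have h2 : V u (Fin.last N) = (u (Fin.last N)).val + N - P N := rfl
      have h3 := (u (Fin.last N)).isLt
      omega
    · rw [Finset.card_image_of_injective _ hmono.injective]
      simp
  · intro u hu u' hu' h
    rw [Finset.mem_filter] at hu hu'
    have hmono := hVmono u hu.2
    have hmono' := hVmono u' hu'.2
    have hc : (Finset.univ.image (V u)).card = N + 1 := by
      rw [Finset.card_image_of_injective _ hmono.injective]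
      simp
    have e1 := Finset.orderEmbOfFin_unique hc
      (fun x => Finset.mem_image_of_mem _ (Finset.mem_univ x)) hmono
    have e2 := Finset.orderEmbOfFin_unique hc (f := V u')
      (fun x => by
        rw [h]
        exact Finset.mem_image_of_mem _ (Finset.mem_univ x)) hmono'
    have e3 : V u = V u' := e1.trans e2.symm
    funext i
    have e4 := congrFun e3 i
    have h1 := hPi i.val
    simp only [hV] at e4
    apply Fin.ext
    omega
  · intro S hS
    rw [Finset.mem_powersetCard] at hS
    obtain ⟨hS1, hS2⟩ := hS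
    set v : Fin (N + 1) → ℕ := ⇑(S.orderEmbOfFin hS2) with hv
    have hmono : StrictMono v := (S.orderEmbOfFin hS2).strictMono
    have hmem : ∀ i, v i < m + N + 1 - P N := by
      intro i
      have := hS1 (Finset.orderEmbOfFin_mem S hS2 i)
      rwa [Finset.mem_range] at this
    have hlow : ∀ i : Fin (N + 1), i.val ≤ v i := fun i => omEq_le v hmono i.val i.isLt
    have hup : ∀ i : Fin (N + 1), v i + (N - i.val) ≤ v (Fin.last N) := by
      intro i
      have h1 := omEq_last v hmono (N - i.val) (by omega)
      have h2 : (⟨N - (N - i.val), by omega⟩ : Fin (N + 1)) = i := by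
        apply Fin.ext
        simp only
        omega
      rw [h2] at h1
      exact h1
    have hu : ∀ i : Fin (N + 1), v i - i.val + P i.val < m + 1 := by
      intro i
      have h1 := hup i
      have h2 := hmem (Fin.last N)
      have h3 := hPm i.val (by omega)
      have h4 := hlow i
      omega
    refine ⟨fun i => ⟨v i - i.val + P i.val, hu i⟩, ?_, ?_⟩
    · rw [Finset.mem_filter]
      refine ⟨Finset.mem_univ _, ?_⟩
      intro i
      have h1 : v i.castSucc < v i.succ := hmono (Fin.castSucc_lt_succ)
      have h2 := hlow i.castSucc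
      have h3 := hlow i.succ
      have h4 := hPs i.val
      simp only [Fin.val_castSucc, Fin.val_succ] at h2 h3 ⊢
      omega
    · have hVv : V (fun i => ⟨v i - i.val + P i.val, hu i⟩) = v := by
        funext i
        have h1 := hlow i
        have h2 := hPi i.val
        simp only [hV]
        omega
      show Finset.univ.image (V (fun i => ⟨v i - i.val + P i.val, hu i⟩)) = S
      rw [hVv, hv]
      exact Finset.image_orderEmbOfFin_univ S hS2

end Count

section Sorting

variable {N m : ℕ} (lab : Fin (N + 1) → ℕ)

/-- the key by which the letters are sorted -/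
def omKey (f : Fin (N + 1) → Fin (m + 1)) (a : Fin (N + 1)) : Fin (m + 1) ×ₗ ℕ := toLex (f a, lab a)

theorem omKey_inj (hinj : Function.Injective lab) (f : Fin (N + 1) → Fin (m + 1)) :
    Function.Injective (omKey lab f) := by
  intro a b h
  unfold omKey at h
  have h1 := toLex.injective h
  exact hinj (Prod.mk.inj h1).2

theorem omKey_lt (f : Fin (N + 1) → Fin (m + 1)) (a b : Fin (N + 1)) :
    omKey lab f a < omKey lab f b ↔ f a < f b ∨ (f a = f b ∧ lab a < lab b) := by
  unfold omKey
  rw [Prod.Lex.toLex_lt_toLex]

theorem omKey_sort (hinj : Function.Injective lab) (f : Fin (N + 1) → Fin (m + 1))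
    (g : Equiv.Perm (Fin (N + 1))) :
    Tuple.sort (omKey lab f) = g ↔ StrictMono (omKey lab f ∘ g) := by
  constructor
  · rintro rfl
    exact (Tuple.monotone_sort _).strictMono_of_injective
      ((omKey_inj lab hinj f).comp (Equiv.injective _))
  · intro h
    have h1 := Tuple.unique_monotone (Tuple.monotone_sort (omKey lab f)) h.monotone
    apply Equiv.ext
    intro i
    exact omKey_inj lab hinj f (congrFun h1 i)

theorem omKey_strict (hinj : Function.Injective lab) (f : Fin (N + 1) → Fin (m + 1))
    (g : Equiv.Perm (Fin (N + 1))) :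
    StrictMono (omKey lab f ∘ g) ↔ ∀ i : Fin N, (f (g i.castSucc)).val +
      (if lab (g i.succ) < lab (g i.castSucc) then 1 else 0) ≤ (f (g i.succ)).val := by
  rw [Fin.strictMono_iff_lt_succ]
  apply forall_congr'
  intro i
  show omKey lab f (g i.castSucc) < omKey lab f (g i.succ) ↔ _
  rw [omKey_lt, Fin.lt_def, Fin.ext_iff]
  have hne : lab (g i.castSucc) ≠ lab (g i.succ) := by
    intro h
    have h1 := g.injective (hinj h)
    have h2 := congrArg Fin.val h1
    simp at h2
  split_ifs with h
  · omega
  · omega

end Sorting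

theorem Om_eq37 {N : ℕ} {Q : Rel (N + 1)} {lab : Fin (N + 1) → ℕ} (hn : Nat' Q lab) (m : ℕ) :
    Om Q m = ∑ g ∈ LE Q, (m + N + 1 - des lab g).choose (N + 1) := by
  classical
  have hOm : Om Q m = (Finset.univ.filter fun f : Fin (N + 1) → Fin (m + 1) =>
      ∀ a b, Q a b → f a ≤ f b).card := by
    unfold Om
    congr
  rw [hOm]
  rw [Finset.card_eq_sum_card_fiberwise (f := fun f => Tuple.sort (omKey lab f)) (t := LE Q)]
  · apply Finset.sum_congr rfl
    intro g hg
    rw [mem_LE] at hg
    set d : ℕ → ℕ := fun j => if h : j < N then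
      (if lab (g (⟨j, h⟩ : Fin N).succ) < lab (g (⟨j, h⟩ : Fin N).castSucc) then 1 else 0) else 0
      with hd
    have hd1 : ∀ i, d i ≤ 1 := by
      intro i
      simp only [hd]
      split_ifs <;> omega
    have hdi : ∀ i : Fin N, d i.val =
        if lab (g i.succ) < lab (g i.castSucc) then 1 else 0 := by
      intro i
      simp only [hd]
      rw [dif_pos i.isLt]
    have hdes : des lab g = ∑ j ∈ Finset.range N, d j := by
      unfold des
      rw [Finset.card_filter, ← Fin.sum_univ_eq_sum_range]
      exact Finset.sum_congr rfl fun i _ => (hdi i).symm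
    rw [hdes, ← omEq_count N m d hd1]
    refine Finset.card_bij (fun f _ => f ∘ g) ?_ ?_ ?_
    · intro f hf
      rw [Finset.mem_filter, Finset.mem_filter] at hf
      rw [Finset.mem_filter]
      refine ⟨Finset.mem_univ _, ?_⟩
      have h1 := (omKey_strict lab hn.inj f g).1 ((omKey_sort lab hn.inj f g).1 hf.2)
      intro i
      rw [hdi]
      exact h1 i
    · intro f _ f' _ h
      funext a
      have := congrFun h (g.symm a)
      simpa using this
    · intro u hu
      rw [Finset.mem_filter] at hu
      have hcomp : (u ∘ g.symm) ∘ g = u := by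
        funext i
        simp
      have hs : StrictMono (omKey lab (u ∘ g.symm) ∘ g) := by
        rw [omKey_strict lab hn.inj]
        intro i
        have := hu.2 i
        rw [hdi] at this
        simpa using this
      refine ⟨u ∘ g.symm, ?_, hcomp⟩
      rw [Finset.mem_filter, Finset.mem_filter]
      refine ⟨⟨Finset.mem_univ _, ?_⟩, (omKey_sort lab hn.inj _ g).2 hs⟩
      intro a b hab
      have h1 : g.symm a < g.symm b := hg _ _ (by simpa using hab)
      have h2 := hs h1
      simp only [Function.comp_apply, Equiv.apply_symm_apply] at h2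
      rw [omKey_lt] at h2
      rcases h2 with h2 | h2
      · exact h2.le
      · exact h2.1.le
  · intro f hf
    rw [Finset.mem_coe, Finset.mem_filter] at hf
    rw [Finset.mem_coe, mem_LE]
    intro i j hij
    have hs := (omKey_sort lab hn.inj f _).1 rfl
    rw [← hs.lt_iff_lt]
    show omKey lab f _ < omKey lab f _
    rw [omKey_lt]
    rcases lt_or_eq_of_le (hf.2 _ _ hij) with h | h
    · exact Or.inl h
    · exact Or.inr ⟨h, hn.mono _ _ hij⟩

end Pool.SC45
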