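import Pool.Agent.SC45.Defs

set_option autoImplicit false

/-!
# SC45/OmFS: elementary inequalities for the order polynomial (Om_floor, Om_shift)
-/

namespace Pool.SC45

open Pool.HB45

/-- `F ↦ (F / q, F % q)` -/
theorem Om_floor {n : ℕ} (Q : Rel n) (q m : ℕ) (hq : 1 ≤ q) :
    Om Q (q * (m + 1) - 1) ≤ q ^ n * Om Q m := by
  classical
  have hm : q * (m + 1) - 1 + 1 = q * (m + 1) := by
    have : 1 ≤ q * (m + 1) := Nat.mul_pos hq (Nat.succ_pos m)
    omega
  have hcard : q ^ n * Om Q m = ((Finset.univ : Finset (Fin n → Fin q)) ×ˢ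
      (Finset.univ.filter fun f : Fin n → Fin (m + 1) => ∀ a b, Q a b → f a ≤ f b)).card := by
    rw [Finset.card_product, Finset.card_univ, Fintype.card_fun, Fintype.card_fin, Fintype.card_fin]
    unfold Om
    congr!
  rw [hcard]
  unfold Om
  have hdiv : ∀ (F : Fin n → Fin (q * (m + 1) - 1 + 1)) (a : Fin n), (F a).val / q < m + 1 := by
    intro F a
    have h1 : (F a).val < q * (m + 1) := lt_of_lt_of_eq (F a).isLt hm
    exact Nat.div_lt_of_lt_mul h1
  refine Finset.card_le_card_of_injOn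
    (fun F => ((fun a => ⟨(F a).val % q, Nat.mod_lt _ hq⟩), fun a => ⟨(F a).val / q, hdiv F a⟩))
    ?_ ?_
  · intro F hF
    have hF' := (Finset.mem_filter.1 hF).2
    rw [Finset.mem_coe, Finset.mem_product]
    refine ⟨Finset.mem_univ _, Finset.mem_filter.2 ⟨Finset.mem_univ _, ?_⟩⟩
    intro a b hab
    rw [Fin.le_def]
    exact Nat.div_le_div_right (Fin.le_def.1 (hF' a b hab))
  · intro F _ F' _ h
    simp only [Prod.mk.injEq] at h
    obtain ⟨h1, h2⟩ := h
    funext a
    have e1 := congrArg Fin.val (congrFun h1 a)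
    have e2 := congrArg Fin.val (congrFun h2 a)
    simp only at e1 e2
    apply Fin.ext
    rw [← Nat.div_add_mod (F a).val q, ← Nat.div_add_mod (F' a).val q, e1, e2]

/-- `(f, ρ) ↦ q (f + κ) + ρ` -/
theorem Om_shift {n h : ℕ} {Q : Rel n} {κ : Fin n → ℕ} (hκ : Lev h Q κ) (hh : 1 ≤ h) (q m : ℕ)
    (hq : 1 ≤ q) : q ^ n * Om Q m ≤ Om Q (q * (m + h) - 1) := by
  classical
  have hm : q * (m + h) - 1 + 1 = q * (m + h) := by
    have : 1 ≤ q * (m + h) := Nat.mul_pos hq (by omega)
    omega
  have hcard : q ^ n * Om Q m = ((Finset.univ : Finset (Fin n → Fin q)) ×ˢ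
      (Finset.univ.filter fun f : Fin n → Fin (m + 1) => ∀ a b, Q a b → f a ≤ f b)).card := by
    rw [Finset.card_product, Finset.card_univ, Fintype.card_fun, Fintype.card_fin, Fintype.card_fin]
    unfold Om
    congr!
  rw [hcard]
  unfold Om
  have hlt : ∀ (p : (Fin n → Fin q) × (Fin n → Fin (m + 1))) (a : Fin n),
      q * ((p.2 a).val + κ a) + (p.1 a).val < q * (m + h) - 1 + 1 := by
    intro p a
    have h1 := (p.2 a).isLt
    have h2 := (p.1 a).isLt
    have h3 := hκ.lt a
    have h4 : q * ((p.2 a).val + κ a + 1) ≤ q * (m + h) := Nat.mul_le_mul_left _ (by omega)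
    rw [hm]
    calc q * ((p.2 a).val + κ a) + (p.1 a).val < q * ((p.2 a).val + κ a) + q := by omega
      _ = q * ((p.2 a).val + κ a + 1) := by ring
      _ ≤ q * (m + h) := h4
  refine Finset.card_le_card_of_injOn
    (fun p a => ⟨q * ((p.2 a).val + κ a) + (p.1 a).val, hlt p a⟩) ?_ ?_
  · intro p hp
    rw [Finset.mem_coe, Finset.mem_product] at hp
    have hp' := (Finset.mem_filter.1 hp.2).2
    refine Finset.mem_filter.2 ⟨Finset.mem_univ _, ?_⟩
    intro a b hab
    rw [Fin.le_def]
    have h1 := Fin.le_def.1 (hp' a b hab)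
    have h2 := (p.1 a).isLt
    have h3 := hκ.mono a b hab
    have h4 : q * ((p.2 a).val + κ a + 1) ≤ q * ((p.2 b).val + κ b) :=
      Nat.mul_le_mul_left _ (by omega)
    show q * ((p.2 a).val + κ a) + (p.1 a).val ≤ q * ((p.2 b).val + κ b) + (p.1 b).val
    have h5 : q * ((p.2 a).val + κ a + 1) = q * ((p.2 a).val + κ a) + q := by ring
    omega
  · intro p _ p' _ h
    have key : ∀ a, (p.2 a).val = (p'.2 a).val ∧ (p.1 a).val = (p'.1 a).val := by
      intro a
      have e := congrArg Fin.val (congrFun h a)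
      simp only at e
      have h2 := (p.1 a).isLt
      have h2' := (p'.1 a).isLt
      have d1 : (q * ((p.2 a).val + κ a) + (p.1 a).val) / q = (p.2 a).val + κ a := by
        rw [Nat.mul_add_div hq, Nat.div_eq_of_lt h2, add_zero]
      have d2 : (q * ((p'.2 a).val + κ a) + (p'.1 a).val) / q = (p'.2 a).val + κ a := by
        rw [Nat.mul_add_div hq, Nat.div_eq_of_lt h2', add_zero]
      rw [e, d2] at d1
      have e2 : (p.2 a).val = (p'.2 a).val := by omega
      refine ⟨e2, ?_⟩
      rw [e2] at e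
      omega
    refine Prod.ext ?_ ?_
    · funext a
      exact Fin.ext (key a).2
    · funext a
      exact Fin.ext (key a).1

end Pool.SC45
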